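import Pool.Agent.Q45.UH.Gen2

/-!
# The class group of the generic hyperelliptic curve with `r` marked points is free of rank `r`
-/

set_option autoImplicit false

open Polynomial Pool.Agent.TH943.HJ

namespace Q45.UH

section points

variable {K : Type} [Field K] {F : K[X]} {a b : K}

theorem ev_aux (h : F.eval a = b ^ 2) :
    (X ^ 2 - C F : K[X][X]).eval₂ (evalRingHom a) b = 0 := by
  rw [eval₂_sub, eval₂_pow, eval₂_X, eval₂_C, coe_evalRingHom, h, sub_self]

/-- the value at the point `(a, b)` -/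
noncomputable def ev (h : F.eval a = b ^ 2) : CR F →+* K :=
  AdjoinRoot.lift (evalRingHom a) b (ev_aux h)

theorem ev_pp (h : F.eval a = b ^ 2) (p : K[X]) : ev h (pp p) = p.eval a :=
  AdjoinRoot.lift_of (i := evalRingHom a) (h := ev_aux h) (x := p)

theorem ev_yy (h : F.eval a = b ^ 2) : ev h (yy F) = b :=
  AdjoinRoot.lift_root (i := evalRingHom a) (ev_aux h)

theorem pid_eq_ker (h : F.eval a = b ^ 2) : pid F (X - C a) (C b) = RingHom.ker (ev h) := by
  apply le_antisymm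
  · unfold pid
    rw [Ideal.span_le]
    rintro z (rfl | rfl)
    · rw [SetLike.mem_coe, RingHom.mem_ker, ev_pp, eval_sub, eval_X, eval_C, sub_self]
    · rw [SetLike.mem_coe, RingHom.mem_ker, map_sub, ev_pp, ev_yy, eval_C, sub_self]
  · intro z hz
    rw [RingHom.mem_ker] at hz
    obtain ⟨u, v, rfl⟩ := exists_el z
    rw [el, map_add, map_mul, ev_pp, ev_pp, ev_yy] at hz
    obtain ⟨u', hu'⟩ := X_sub_C_dvd_sub_C_eval (p := u) (a := a)
    obtain ⟨v', hv'⟩ := X_sub_C_dvd_sub_C_eval (p := v) (a := a)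
    have e : el u v = pp (X - C a) * (pp u' + pp v' * yy F) +
        pp (C (v.eval a)) * (yy F - pp (C b)) + pp (C (u.eval a + v.eval a * b)) := by
      have h1 : (pp u : CR F) = pp (X - C a) * pp u' + pp (C (u.eval a)) := by
        rw [← map_mul, ← hu', ← map_add, sub_add_cancel]
      have h2 : (pp v : CR F) = pp (X - C a) * pp v' + pp (C (v.eval a)) := by
        rw [← map_mul, ← hv', ← map_add, sub_add_cancel]
      rw [el, h1, h2, C_add, C_mul, map_add, map_mul]
      ring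
    rw [e, hz, C_0, map_zero, add_zero]
    exact Ideal.add_mem _ (Ideal.mul_mem_right _ _ (pp_mem_pid _ _))
      (Ideal.mul_mem_left _ _ (yy_mem_pid _ _))

theorem pid_max (h : F.eval a = b ^ 2) : (pid F (X - C a) (C b)).IsMaximal := by
  rw [pid_eq_ker h]
  refine RingHom.ker_isMaximal_of_surjective _ fun c => ⟨pp (C c), ?_⟩
  rw [ev_pp, eval_C]

end points

section

variable {L K : Type} [Field L] [Field K] [Algebra L[X] K] {r : ℕ} {f : L[X]} {x y : Fin r → L}

theorem gF_eval (D : Dt f x y) (i : Fin r) :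
    (gF K f (pi x)).eval (lk L K (x i)) = (lk L K (y i)) ^ 2 := by
  rw [gF, eval_add, eval_mul, eval_C, eval_map_apply, eval_map_apply, D.pt, pi, eval_prod,
    Finset.prod_eq_zero (Finset.mem_univ i), map_zero, mul_zero, add_zero, map_pow]
  rw [eval_sub, eval_X, eval_C, sub_self]

theorem pts (D : Dt f x y) : Pts (gF K f (pi x)) (fun i => X - C (lk L K (x i)))
    (fun i => C (lk L K (y i))) where
  monic := fun i => monic_X_sub_C _
  dvd := fun i => by
    rw [dvd_iff_isRoot, IsRoot, eval_sub, gF_eval D, eval_pow, eval_C, sub_self]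
  cop := fun i => by
    have h1 : lk L K (y i) ≠ 0 := (_root_.map_ne_zero _).2 (D.ne i)
    refine ⟨0, C (lk L K (y i))⁻¹, ?_⟩
    rw [zero_mul, zero_add, ← C_mul, inv_mul_cancel₀ h1, C_1]
  pw := fun i j hij => by
    refine isCoprime_X_sub_C_of_isUnit_sub (sub_ne_zero.2 fun h => ?_).isUnit
    exact hij (D.inj ((lk L K).injective h))

theorem cop_pi (D : Dt f x y) : IsCoprime (pi x) f := by
  unfold pi
  refine IsCoprime.prod_left fun i _ => ?_
  rw [(irreducible_X_sub_C (x i)).coprime_iff_not_dvd, dvd_iff_isRoot, IsRoot, D.pt]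
  exact pow_ne_zero _ (D.ne i)

theorem pi_lt (D : Dt f x y) : (pi x).natDegree < f.natDegree := by
  rw [pi_natDegree]
  exact D.lt

variable [IsFractionRing L[X] K]

theorem irr (D : Dt f x y) : Irreducible (gF K f (pi x)) :=
  gF_irreducible D.monic (pi_lt D) (pi_monic x).ne_zero (cop_pi D)

omit [IsFractionRing L[X] K] in
theorem oddF (D : Dt f x y) : Odd (gF K f (pi x)).natDegree := by
  rw [gF_natDegree D.monic (pi_lt D)]
  exact D.odd

theorem ded (h2 : (2 : K) ≠ 0) (D : Dt f x y) : IsDedekindDomain (CR (gF K f (pi x))) :=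
  dedekind h2 (oddF D) (irr D).squarefree

/-- the class of a marked point -/
noncomputable def cl (K : Type) [Field K] [Algebra L[X] K] (f : L[X]) (x y : Fin r → L)
    [IsDedekindDomain (CR (gF K f (pi x)))] (i : Fin r) : ClassGroup (CR (gF K f (pi x))) :=
  cls (gF K f (pi x)) (X - C (lk L K (x i))) (C (lk L K (y i))) (monic_X_sub_C _).ne_zero

omit [IsFractionRing L[X] K] in
theorem prime_over (h2 : (2 : K) ≠ 0) (D : Dt f x y) (𝔮 : Ideal (CR (gF K f (pi x))))
    [h𝔮 : 𝔮.IsPrime] (h : psi K f (pi x) (C (pi x)) ∈ 𝔮) :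
    ∃ i, 𝔮 = pid (gF K f (pi x)) (X - C (lk L K (x i))) (C (lk L K (y i))) ∨
      𝔮 = pid (gF K f (pi x)) (X - C (lk L K (x i))) (-C (lk L K (y i))) := by
  rw [psi_C] at h
  have h1 : (pi x).map (lk L K) = ∏ i, (X - C (lk L K (x i))) := by
    rw [pi, Polynomial.map_prod]
    refine Finset.prod_congr rfl fun i _ => ?_
    rw [Polynomial.map_sub, map_X, map_C]
  rw [h1, map_prod, h𝔮.prod_mem_iff] at h
  obtain ⟨i, -, hi⟩ := h
  refine ⟨i, ?_⟩
  have h3 := pid_mul h2 ((pts D).dvd i) ((pts D).cop i)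
  have h4 : Ideal.span {(pp (X - C (lk L K (x i))) : CR (gF K f (pi x)))} ≤ 𝔮 := by
    rwa [Ideal.span_singleton_le_iff_mem]
  rw [← h3] at h4
  rcases h𝔮.mul_le.1 h4 with h5 | h5
  · left
    exact ((pid_max (gF_eval D i)).eq_of_le h𝔮.ne_top h5).symm
  · right
    have h6 : (gF K f (pi x)).eval (lk L K (x i)) = (-lk L K (y i)) ^ 2 := by
      rw [neg_sq, gF_eval D]
    have h7 := pid_max h6
    rw [C_neg] at h7
    exact (h7.eq_of_le h𝔮.ne_top h5).symm

omit [IsFractionRing L[X] K] in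
theorem isUnit_prime_mem [IsDedekindDomain (CR (gF K f (pi x)))]
    (H : Subgroup (ClassGroup (CR (gF K f (pi x)))))
    (I : Ideal (CR (gF K f (pi x)))) (hI : I ≠ ⊥)
    (h : ∀ 𝔮 : Ideal (CR (gF K f (pi x))), Prime 𝔮 → 𝔮 ∣ I →
      ∀ h0 : 𝔮 ∈ nonZeroDivisors (Ideal (CR (gF K f (pi x)))), ClassGroup.mk0 ⟨𝔮, h0⟩ ∈ H) :
    ∀ h0 : I ∈ nonZeroDivisors (Ideal (CR (gF K f (pi x)))), ClassGroup.mk0 ⟨I, h0⟩ ∈ H := by
  induction I using UniqueFactorizationMonoid.induction_on_prime with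
  | h₁ => exact absurd rfl hI
  | h₂ u hu =>
    intro h0
    have h1 : u = 1 := by
      rw [Ideal.isUnit_iff] at hu
      rw [hu, Ideal.one_eq_top]
    have h2 : ClassGroup.mk0 ⟨u, h0⟩ = 1 := by
      rw [ClassGroup.mk0_eq_one_iff]
      show Submodule.IsPrincipal u
      rw [h1]
      exact ⟨⟨1, by rw [Ideal.submodule_span_eq, Ideal.span_singleton_one, Ideal.one_eq_top]⟩⟩
    rw [h2]
    exact one_mem H
  | h₃ a q ha hq ih =>
    intro h0
    have hq0 : q ∈ nonZeroDivisors (Ideal (CR (gF K f (pi x)))) :=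
      mem_nonZeroDivisors_iff_ne_zero.2 hq.ne_zero
    have ha0 : a ∈ nonZeroDivisors (Ideal (CR (gF K f (pi x)))) :=
      mem_nonZeroDivisors_iff_ne_zero.2 ha
    have h1 : (⟨q * a, h0⟩ : nonZeroDivisors (Ideal (CR (gF K f (pi x))))) =
        ⟨q, hq0⟩ * ⟨a, ha0⟩ := rfl
    rw [h1, map_mul]
    refine mul_mem (h q hq (dvd_mul_right _ _) hq0) (ih ha (fun 𝔮 h𝔮 hd => ?_) ha0)
    exact h 𝔮 h𝔮 (hd.mul_left _)

/-- The classes of the marked points generate the class group. -/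
theorem cl_top (h2 : (2 : K) ≠ 0) (D : Dt f x y) [hD : IsDedekindDomain (CR (gF K f (pi x)))] :
    Subgroup.closure (Set.range (cl K f x y)) = ⊤ := by
  obtain ⟨H, hH⟩ : ∃ H, H = Subgroup.closure (Set.range (cl K f x y)) := ⟨_, rfl⟩
  rw [← hH]
  have hcl : ∀ i, cl K f x y i ∈ H := fun i => by
    rw [hH]
    exact Subgroup.subset_closure ⟨i, rfl⟩
  -- primes over the marked fibres
  have hover : ∀ 𝔮 : Ideal (CR (gF K f (pi x))), Prime 𝔮 → psi K f (pi x) (C (pi x)) ∈ 𝔮 →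
      ∀ h0 : 𝔮 ∈ nonZeroDivisors (Ideal (CR (gF K f (pi x)))), ClassGroup.mk0 ⟨𝔮, h0⟩ ∈ H := by
    intro 𝔮 h𝔮 hmem h0
    have : 𝔮.IsPrime := Ideal.isPrime_of_prime h𝔮
    obtain ⟨i, hi | hi⟩ := prime_over h2 D 𝔮 hmem
    · have h1 : ClassGroup.mk0 ⟨𝔮, h0⟩ = cl K f x y i := by
        unfold cl cls idl
        congr 1
        exact Subtype.ext hi
      rw [h1]
      exact hcl i
    · have h1 : ClassGroup.mk0 ⟨𝔮, h0⟩ = (cl K f x y i)⁻¹ := by
        unfold cl
        rw [← cls_neg h2 _ ((pts D).dvd i) ((pts D).cop i)]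
        unfold cls idl
        congr 1
        exact Subtype.ext hi
      rw [h1]
      exact inv_mem (hcl i)
  -- all primes
  have hall : ∀ 𝔭 : Ideal (CR (gF K f (pi x))), Prime 𝔭 →
      ∀ h0 : 𝔭 ∈ nonZeroDivisors (Ideal (CR (gF K f (pi x)))), ClassGroup.mk0 ⟨𝔭, h0⟩ ∈ H := by
    intro 𝔭 h𝔭 h0
    have hp : 𝔭.IsPrime := Ideal.isPrime_of_prime h𝔭
    by_cases hmem : psi K f (pi x) (C (pi x)) ∈ 𝔭
    · exact hover 𝔭 h𝔭 hmem h0
    obtain ⟨g, J, E, hg, hgJ, hEJ⟩ := gen_abs (psi K f (pi x)) (psi_inj (pi_monic x).ne_zero)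
      (C (pi x)) {z | ∃ c : L[X], c ≠ 0 ∧ z = io K f (pi x) c}
      (by
        rintro _ ⟨c, hc, rfl⟩
        exact io_isUnit hc)
      (by
        rintro _ ⟨c, hc, rfl⟩
        exact Qz.io c)
      (by
        rintro _ ⟨c, hc, rfl⟩ _ ⟨d, hd, rfl⟩
        exact ⟨c * d, mul_ne_zero hc hd, (map_mul _ _ _).symm⟩)
      (by
        intro a
        obtain ⟨c, hc, e, P, hP⟩ := Qz.all a
        exact ⟨_, ⟨c, hc, rfl⟩, e, P, hP⟩)
      𝔭 h𝔭.ne_zero hmem
    have hJ0 : J ≠ ⊥ := by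
      rintro rfl
      rw [Ideal.mul_bot, Ideal.span_singleton_eq_bot] at hgJ
      exact hg hgJ
    have hJ1 : J ∈ nonZeroDivisors (Ideal (CR (gF K f (pi x)))) :=
      mem_nonZeroDivisors_iff_ne_zero.2 hJ0
    have hJH := isUnit_prime_mem H J hJ0 (fun 𝔮 h𝔮 hd h1 => by
      have hq : 𝔮.IsPrime := Ideal.isPrime_of_prime h𝔮
      refine hover 𝔮 h𝔮 ?_ h1
      have h3 : psi K f (pi x) (C (pi x)) ^ E ∈ 𝔮 := by
        rw [← Ideal.span_singleton_le_iff_mem]
        exact hEJ.trans (Ideal.dvd_iff_le.1 hd)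
      exact hq.mem_of_pow_mem _ h3) hJ1
    have hprod : ClassGroup.mk0 ⟨𝔭, h0⟩ * ClassGroup.mk0 ⟨J, hJ1⟩ = 1 := by
      rw [← map_mul, ClassGroup.mk0_eq_one_iff]
      show Submodule.IsPrincipal (𝔭 * J)
      rw [← hgJ]
      exact ⟨⟨g, rfl⟩⟩
    rw [mul_eq_one_iff_eq_inv] at hprod
    rw [hprod]
    exact inv_mem hJH
  rw [Subgroup.eq_top_iff']
  intro c
  obtain ⟨I, rfl⟩ := ClassGroup.mk0_surjective c
  obtain ⟨I, hI⟩ := I
  exact isUnit_prime_mem H I (mem_nonZeroDivisors_iff_ne_zero.1 hI) (fun 𝔮 h𝔮 _ h1 => hall 𝔮 h𝔮 h1) hI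

theorem cl_indep (h2 : (2 : K) ≠ 0) (D : Dt f x y) [hD : IsDedekindDomain (CR (gF K f (pi x)))] :
    LinearIndependent ℤ (fun i => Additive.ofMul (cl K f x y i)) := by
  rw [Fintype.linearIndependent_iff]
  intro z hz i
  have h1 : ∏ i, cl K f x y i ^ z i = 1 := by
    have h3 : Additive.ofMul (∏ i, cl K f x y i ^ z i) = 0 := by
      rw [ofMul_prod, ← hz]
      exact Finset.sum_congr rfl fun i _ => ofMul_zpow _ _
    exact h3
  have h4 := indep h2 (oddF D) (irr D) (pts D) (fun W V c e hc h => norm_even D W V c e hc h) z h1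
  rw [h4]
  rfl

/-- **The class group of the generic curve with `r` marked points is free of rank `r`.** -/
theorem class_free (h2 : (2 : K) ≠ 0) (D : Dt f x y)
    [hD : IsDedekindDomain (CR (gF K f (pi x)))] :
    Module.Free ℤ (Additive (ClassGroup (CR (gF K f (pi x))))) ∧
    Module.Finite ℤ (Additive (ClassGroup (CR (gF K f (pi x))))) ∧
    Module.finrank ℤ (Additive (ClassGroup (CR (gF K f (pi x))))) = r := by
  have hspan : Submodule.span ℤ (Set.range fun i => Additive.ofMul (cl K f x y i)) = ⊤ := by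
    rw [eq_top_iff]
    intro c _
    have h1 : c.toMul ∈ Subgroup.closure (Set.range (cl K f x y)) := by
      rw [cl_top h2 D]
      exact Subgroup.mem_top _
    have h3 : ∀ d ∈ Subgroup.closure (Set.range (cl K f x y)), Additive.ofMul d ∈
        Submodule.span ℤ (Set.range fun i => Additive.ofMul (cl K f x y i)) := by
      intro d hd
      induction hd using Subgroup.closure_induction with
      | mem u hu =>
        obtain ⟨i, rfl⟩ := hu
        exact Submodule.subset_span ⟨i, rfl⟩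
      | one => exact Submodule.zero_mem _
      | mul u v _ _ hu hv => exact Submodule.add_mem _ hu hv
      | inv u _ hu => exact Submodule.neg_mem _ hu
    exact h3 _ h1
  let b : Module.Basis (Fin r) ℤ (Additive (ClassGroup (CR (gF K f (pi x))))) :=
    Module.Basis.mk (cl_indep h2 D) hspan.ge
  refine ⟨Module.Free.of_basis b, Module.Finite.of_basis b, ?_⟩
  rw [Module.finrank_eq_card_basis b, Fintype.card_fin]

end

end Q45.UH
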