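import Pool.Agent.Q45.UH.Core
import Pool.Agent.TH958.An.ArithMain

/-!
# Euler products over the closed points of a scheme of finite type over the integers, from the sums
of the traces over finite fields
-/

set_option autoImplicit false

namespace Q45.UH

open Pool.Agent.H126R3 (exists_F le_of_cast_zero Qc Qc_pos Qc_rpow card_ringHom)
open Pool.Agent.TH958.An (Pt Res qy qq pk ptOf mem_ptOf fiberEquiv res_bij sum_fib card_Yc_le
  card_compl pk_zero qq_eq_qy)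

section
variable {R : Type} [CommRing R] [Algebra.FiniteType ℤ R]

/-- A function of the points of `R` with values in fields, invariant under isomorphisms. -/
def Inv {A : Type} (t : ∀ (F : Type) [Field F], (R →+* F) → A) : Prop :=
  ∀ (F F' : Type) [Field F] [Field F'] (ψ : F →+* F'), Function.Bijective ψ → ∀ φ : R →+* F,
    t F' (ψ.comp φ) = t F φ

omit [Algebra.FiniteType ℤ R] in
/-- the value at a closed point -/
noncomputable def atPt {A : Type} (t : ∀ (F : Type) [Field F], (R →+* F) → A) (y : Pt R) : A :=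
  t (Res y) (Ideal.Quotient.mk y.asIdeal)

theorem atPt_ptOf {A : Type} {t : ∀ (F : Type) [Field F], (R →+* F) → A} (ht : Inv t)
    {F : Type} [Field F] [Fintype F] (c : Nat.Primes × ℕ)
    (h : Fintype.card F = (c.1 : ℕ) ^ (c.2 + 1)) (φ : R →+* F) (hφ : pk (ptOf φ) = c) :
    atPt t (ptOf φ) = t F φ := by
  rw [atPt, ← ht _ _ _ (res_bij c h φ hφ)]
  congr 1

variable {t : ∀ (F : Type) [Field F], (R →+* F) → ℝ}

theorem Ac_zero (ht : Inv t) (p : Nat.Primes) {F : Type} [Field F] [Fintype F]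
    (hF : Fintype.card F = (p : ℕ) ^ (0 + 1)) [Fintype {y : Pt R // pk y = (p, 0)}] :
    ∑ y : {y : Pt R // pk y = (p, 0)}, atPt t y.1 = ∑ᶠ φ : R →+* F, t F φ := by
  classical
  let _ : Fintype (R →+* F) := Fintype.ofFinite _
  have h := sum_fib (p, 0) hF (atPt t)
  rw [show (((p, 0) : Nat.Primes × ℕ).2 + 1 : ℕ) = 1 from rfl, Nat.cast_one, one_mul] at h
  rw [← h, finsum_eq_sum_of_fintype]
  let e : {φ : R →+* F // pk (ptOf φ) = (p, 0)} ≃ (R →+* F) :=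
    Equiv.subtypeUnivEquiv (pk_zero p hF)
  apply Fintype.sum_equiv e
  intro φ
  exact atPt_ptOf ht (p, 0) hF φ.1 φ.2

theorem Ac_one (ht : Inv t) (B : ℝ) (hB : 0 ≤ B)
    (hb : ∀ (F : Type) [Field F] [Fintype F] (φ : R →+* F),
      |t F φ| ≤ B * Real.sqrt (Fintype.card F))
    (p : Nat.Primes) {F F₀ : Type} [Field F] [Fintype F] [Field F₀] [Fintype F₀]
    (hF : Fintype.card F = (p : ℕ) ^ (1 + 1)) (hF₀ : Fintype.card F₀ = (p : ℕ) ^ (0 + 1))
    [Fintype {y : Pt R // pk y = (p, 1)}] :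
    |∑ y : {y : Pt R // pk y = (p, 1)}, atPt t y.1| ≤ |∑ᶠ φ : R →+* F, t F φ| +
      (Nat.card (R →+* F₀) : ℝ) * (B * (p : ℕ)) := by
  classical
  let _ : Fintype (R →+* F) := Fintype.ofFinite _
  have h := sum_fib (p, 1) hF (atPt t)
  have hsq : Real.sqrt (Fintype.card F) = (p : ℕ) := by
    rw [hF]
    push_cast
    exact Real.sqrt_sq (Nat.cast_nonneg _)
  have hg2 : ∀ φ : R →+* F, |t F φ| ≤ B * (p : ℕ) := by
    intro φ
    rw [← hsq]
    exact hb F φ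
  have hsplit := Fintype.sum_subtype_add_sum_subtype (fun φ : R →+* F => pk (ptOf φ) = (p, 1))
    (t F)
  have hcomp : |∑ φ : {φ : R →+* F // ¬ pk (ptOf φ) = (p, 1)}, t F φ.1| ≤
      (Nat.card (R →+* F₀) : ℝ) * (B * (p : ℕ)) := by
    refine (Finset.abs_sum_le_sum_abs _ _).trans ?_
    refine (Finset.sum_le_sum fun φ _ => hg2 φ.1).trans ?_
    rw [Finset.sum_const, Finset.card_univ, nsmul_eq_mul, ← Nat.card_eq_fintype_card]
    refine mul_le_mul_of_nonneg_right ?_ (by positivity)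
    exact_mod_cast card_compl (R := R) p hF hF₀
  have h5 : (2 : ℝ) * ∑ y : {y : Pt R // pk y = (p, 1)}, atPt t y.1 =
      ∑ φ : {φ : R →+* F // pk (ptOf φ) = (p, 1)}, t F φ.1 := by
    rw [show (((p, 1) : Nat.Primes × ℕ).2 + 1 : ℕ) = 2 from rfl, Nat.cast_ofNat] at h
    rw [← h]
    exact Finset.sum_congr rfl fun φ _ => atPt_ptOf ht (p, 1) hF φ.1 φ.2
  have h6 : (2 : ℝ) * ∑ y : {y : Pt R // pk y = (p, 1)}, atPt t y.1 = ∑ᶠ φ : R →+* F, t F φ -
      ∑ φ : {φ : R →+* F // ¬ pk (ptOf φ) = (p, 1)}, t F φ.1 := by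
    rw [h5, finsum_eq_sum_of_fintype, ← hsplit]
    ring
  have h7 : |(2 : ℝ) * ∑ y : {y : Pt R // pk y = (p, 1)}, atPt t y.1| ≤
      |∑ᶠ φ : R →+* F, t F φ| + (Nat.card (R →+* F₀) : ℝ) * (B * (p : ℕ)) := by
    rw [h6]
    exact (abs_sub _ _).trans (add_le_add le_rfl hcomp)
  rw [abs_mul, abs_two] at h7
  have h8 := abs_nonneg (∑ᶠ φ : R →+* F, t F φ)
  have h9 : 0 ≤ (Nat.card (R →+* F₀) : ℝ) * (B * (p : ℕ)) := by positivity
  linarith

/-- the remainders of the logarithms of the Euler factors -/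
structure Rem (G : Pt R → Prop) (rho : Pt R → ℂ → ℂ) (B' : ℝ) : Prop where
  h0 : ∀ y s, ¬ G y → rho y s = 0
  diff : ∀ y s, 11 / 6 < s.re → DifferentiableAt ℂ (rho y) s
  nonneg : 0 ≤ B'
  norm : ∀ y s, 11 / 6 ≤ s.re → ‖rho y s‖ ≤ B' * (qy y : ℝ) ^ (-(2 * s.re - 1))

/-- the data of the Euler product -/
noncomputable def dat (G : Pt R → Prop) (rho : Pt R → ℂ → ℂ) (B' : ℝ) (hρ : Rem G rho B')
    (t : ∀ (F : Type) [Field F], (R →+* F) → ℝ) (hG : ∀ y, ¬ G y → atPt t y = 0) (B : ℝ)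
    (hB : 0 ≤ B)
    (hb : ∀ (F : Type) [Field F] [Fintype F] (φ : R →+* F),
      |t F φ| ≤ B * Real.sqrt (Fintype.card F))
    (e : ℕ) (he : 1 ≤ e) (C : ℝ) (hC0 : 0 ≤ C) (hC : ∀ (F : Type) [Field F] [Fintype F],
      (Nat.card (R →+* F) : ℝ) ≤ C * (Fintype.card F : ℝ) ^ (e : ℝ)) :
    Dat (pk : Pt R → Nat.Primes × ℕ) e where
  fin := fun c => Fintype.ofFinite _
  C := C
  hC := hC0
  hcard := by
    intro c
    obtain ⟨F, _, _, hF⟩ := exists_F c
    have h1 := hC F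
    have h3 : (Nat.card {y : Pt R // pk y = c} : ℝ) ≤ Nat.card (R →+* F) := by
      exact_mod_cast card_Yc_le (R := R) c hF
    have h4 : (Fintype.card F : ℝ) = (Qc c : ℝ) := by
      rw [hF, Qc]
    rw [h4] at h1
    exact h3.trans h1
  G := G
  ag := atPt t
  B := B
  hB := hB
  hag := by
    classical
    intro y
    have := Fintype.ofFinite (Res y)
    have h1 := hb (Res y) (Ideal.Quotient.mk y.asIdeal)
    rw [← Nat.card_eq_fintype_card] at h1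
    rw [qq_eq_qy]
    exact h1
  rho := rho
  h0 := hG
  h0' := hρ.h0
  rho_diff := hρ.diff
  B' := B'
  hB' := hρ.nonneg
  rho_norm := by
    intro y s hs
    rw [qq_eq_qy]
    exact hρ.norm y s hs
  he := he

/-- The Euler product over the closed points, from the sums of the traces over finite fields. -/
theorem arith_core (G : Pt R → Prop) (rho : Pt R → ℂ → ℂ) (B' : ℝ) (hρ : Rem G rho B')
    (ht : Inv t) (hG : ∀ y, ¬ G y → atPt t y = 0) (B : ℝ) (hB : 0 ≤ B)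
    (hb : ∀ (F : Type) [Field F] [Fintype F] (φ : R →+* F),
      |t F φ| ≤ B * Real.sqrt (Fintype.card F))
    (e : ℕ) (he : 1 ≤ e) (C : ℝ) (hC0 : 0 ≤ C) (hC : ∀ (F : Type) [Field F] [Fintype F],
      (Nat.card (R →+* F) : ℝ) ≤ C * (Fintype.card F : ℝ) ^ (e : ℝ))
    (r : ℕ) (nn : Nat.Primes → ℝ) (N₀ : ℝ) (hnn : ∀ p, |nn p| ≤ N₀) (K : ℝ) (hK : 0 ≤ K)
    (hT0 : ∀ (p : Nat.Primes) (F : Type) [Field F] [Fintype F], Fintype.card F = (p : ℕ) →
      |∑ᶠ φ : R →+* F, t F φ + r * nn p * (Fintype.card F : ℝ) ^ (e : ℝ)| ≤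
        K * (Fintype.card F : ℝ) ^ ((e : ℝ) - 1 / 2))
    (hT1 : ∀ (F : Type) [Field F] [Fintype F],
      |∑ᶠ φ : R →+* F, t F φ| ≤ K * (Fintype.card F : ℝ) ^ (e : ℝ)) :
    ∃ E : ℂ → ℂ, (∀ s : ℂ, (e : ℝ) + 5 / 6 < s.re → AnalyticAt ℂ E s ∧ E s ≠ 0) ∧
      ∀ s : ℂ, (e : ℝ) + 3 / 2 < s.re → HasProd (fun y : {y : Pt R // G y} =>
        Complex.exp (((atPt t y.1 : ℝ) : ℂ) * (qy y.1 : ℂ) ^ (-s) + rho y.1 s))
        (E s * Complex.exp (-(r : ℂ) * ∑' p : Nat.Primes, (nn p : ℂ) *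
          ((p : ℕ) : ℂ) ^ (-(s - e)))) := by
  set D := dat G rho B' hρ t hG B hB hb e he C hC0 hC with hD
  have he1 : (1 : ℝ) ≤ e := by exact_mod_cast he
  set K' : ℝ := K + C * B with hK'
  have hK'0 : 0 ≤ K' := by positivity
  have b0 : ∀ p : Nat.Primes, |Ac D (p, 0) + r * nn p * ((p : ℕ) : ℝ) ^ (e : ℝ)| ≤
      K' * ((p : ℕ) : ℝ) ^ ((e : ℝ) - 1 / 2) := by
    intro p
    obtain ⟨F, _, _, hF⟩ := exists_F (p, 0)
    have hF' : Fintype.card F = (p : ℕ) ^ (0 + 1) := hF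
    have hF1 : Fintype.card F = (p : ℕ) := by rw [hF', zero_add, pow_one]
    have h6 := hT0 p F hF1
    rw [hF1] at h6
    have h7 : Ac D (p, 0) = ∑ᶠ φ : R →+* F, t F φ := by
      let _ := D.fin (p, 0)
      exact Ac_zero ht p hF'
    rw [h7]
    refine h6.trans (mul_le_mul_of_nonneg_right ?_ (by positivity))
    rw [hK']
    have : 0 ≤ C * B := by positivity
    linarith
  have b1 : ∀ p : Nat.Primes, |Ac D (p, 1)| ≤ K' * ((p : ℕ) : ℝ) ^ (2 * (e : ℝ)) := by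
    intro p
    have hp0 : (0 : ℝ) < ((p : ℕ) : ℝ) := by exact_mod_cast p.2.pos
    have hp1 : (1 : ℝ) ≤ ((p : ℕ) : ℝ) := by exact_mod_cast p.2.pos
    obtain ⟨F₀, _, _, hF₀⟩ := exists_F (p, 0)
    have hF₀' : Fintype.card F₀ = (p : ℕ) ^ (0 + 1) := hF₀
    have hcard₀ : (Fintype.card F₀ : ℝ) = ((p : ℕ) : ℝ) := by
      rw [hF₀']; push_cast; ring
    obtain ⟨F, _, _, hF⟩ := exists_F (p, 1)
    have hF' : Fintype.card F = (p : ℕ) ^ (1 + 1) := hF
    have hcard : (Fintype.card F : ℝ) = ((p : ℕ) : ℝ) ^ (2 : ℝ) := by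
      rw [hF', Nat.cast_pow, ← Real.rpow_natCast]
      norm_num
    have h6 := hT1 F
    have h7 : |Ac D (p, 1)| ≤ |∑ᶠ φ : R →+* F, t F φ| +
        (Nat.card (R →+* F₀) : ℝ) * (B * (p : ℕ)) := by
      let _ := D.fin (p, 1)
      exact Ac_one ht B hB hb p hF' hF₀'
    have h8 := hC F₀
    rw [hcard₀] at h8
    rw [hcard, ← Real.rpow_mul hp0.le] at h6
    have h13 : (Nat.card (R →+* F₀) : ℝ) * (B * (p : ℕ)) ≤ C * B * ((p : ℕ) : ℝ) ^ (2 * (e : ℝ)) := by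
      calc (Nat.card (R →+* F₀) : ℝ) * (B * (p : ℕ)) ≤ (C * ((p : ℕ) : ℝ) ^ (e : ℝ)) * (B * (p : ℕ)) :=
            mul_le_mul_of_nonneg_right h8 (by positivity)
        _ = C * B * ((p : ℕ) : ℝ) ^ ((e : ℝ) + 1) := by
            rw [Real.rpow_add hp0, Real.rpow_one]
            ring
        _ ≤ C * B * ((p : ℕ) : ℝ) ^ (2 * (e : ℝ)) :=
            mul_le_mul_of_nonneg_left
              (Real.rpow_le_rpow_of_exponent_le hp1 (by linarith)) (by positivity)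
    refine h7.trans ((add_le_add h6 h13).trans ?_)
    rw [← add_mul]
  obtain ⟨E, h1, h3⟩ := core D r nn N₀ hnn K' hK'0 b0 b1
  refine ⟨E, h1, ?_⟩
  intro s hs
  have h6 : HasProd (fun y : {y : Pt R // G y} =>
      Complex.exp ((D.ag y.1 : ℂ) * (qq pk y.1 : ℂ) ^ (-s) + D.rho y.1 s)) _ := h3 s hs
  have h7 : (fun y : {y : Pt R // G y} =>
      Complex.exp ((D.ag y.1 : ℂ) * (qq pk y.1 : ℂ) ^ (-s) + D.rho y.1 s)) =
    (fun y : {y : Pt R // G y} =>
      Complex.exp (((atPt t y.1 : ℝ) : ℂ) * (qy y.1 : ℂ) ^ (-s) + rho y.1 s)) := by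
    funext y
    rw [qq_eq_qy]
    rfl
  rw [h7] at h6
  exact h6

end

end Q45.UH
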