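import Pool.Agent.TH943.HJ.Cls

/-!
# The generic hyperelliptic curve with marked points: irreducibility and norms

`L` is a field, `K = L(h)`, `π = ∏ (x - x_i)` and `F = f + h π`.
-/

set_option autoImplicit false

open Polynomial Pool.Agent.TH943.HJ

namespace Q45.UH

/-- The data: `f` is monic of odd degree `> r`, the `x_i` are different and `f(x_i) = y_i ^ 2 ≠ 0`. -/
structure Dt {L : Type} [Field L] {r : ℕ} (f : L[X]) (x y : Fin r → L) : Prop where
  monic : f.Monic
  odd : Odd f.natDegree
  lt : r < f.natDegree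
  inj : Function.Injective x
  pt : ∀ i, f.eval (x i) = y i ^ 2
  ne : ∀ i, y i ≠ 0

/-- `∏ (X - x_i)` -/
noncomputable def pi {L : Type} [Field L] {r : ℕ} (x : Fin r → L) : L[X] := ∏ i, (X - C (x i))

theorem pi_monic {L : Type} [Field L] {r : ℕ} (x : Fin r → L) : (pi x).Monic :=
  monic_prod_X_sub_C x _

theorem pi_natDegree {L : Type} [Field L] {r : ℕ} (x : Fin r → L) : (pi x).natDegree = r := by
  rw [pi, natDegree_finsetProd_X_sub_C_eq_card]
  simp

section

variable {L K : Type} [Field L] [Field K] [Algebra L[X] K]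

/-- the embedding of `L` -/
noncomputable def lk (L K : Type) [Field L] [Field K] [Algebra L[X] K] : L →+* K :=
  (algebraMap L[X] K).comp C

/-- the variable `h` -/
noncomputable def hh (L K : Type) [Field L] [Field K] [Algebra L[X] K] : K := algebraMap L[X] K X

/-- `F = f + h π` over `L[h]` -/
noncomputable def gF0 (f p : L[X]) : L[X][X] := f.map C + C X * p.map C

/-- `F = f + h π` over `K` -/
noncomputable def gF (K : Type) [Field K] [Algebra L[X] K] (f p : L[X]) : K[X] :=
  f.map (lk L K) + C (hh L K) * p.map (lk L K)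

theorem gF0_map (f p : L[X]) : (gF0 f p).map (algebraMap L[X] K) = gF K f p := by
  rw [gF0, gF, Polynomial.map_add, Polynomial.map_mul, Polynomial.map_map, Polynomial.map_map,
    map_C]
  rfl

theorem swap_gF0 (f p : L[X]) : Bivariate.swap (gF0 f p) = C p * X + C f := by
  rw [gF0, map_add, map_mul, Bivariate.swap_map_C, Bivariate.swap_map_C, Bivariate.swap_X]
  ring

theorem gF0_monic {f p : L[X]} (hf : f.Monic) (hlt : p.natDegree < f.natDegree) :
    (gF0 f p).Monic := by
  have h1 : (f.map (C : L →+* L[X])).Monic := hf.map C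
  refine h1.add_of_left ?_
  refine (degree_mul_le _ _).trans_lt ?_
  have hC : (C (X : L[X]) : L[X][X]).degree ≤ 0 := degree_C_le
  have h2 : (f.map (C : L →+* L[X])).degree = f.natDegree := by
    rw [degree_map_eq_of_injective C_injective, degree_eq_natDegree hf.ne_zero]
  rw [h2]
  refine (add_le_add hC (degree_map_le (f := (C : L →+* L[X])) (p := p))).trans_lt ?_
  rw [zero_add]
  refine degree_le_natDegree.trans_lt ?_
  exact_mod_cast hlt

theorem gF0_natDegree {f p : L[X]} (hf : f.Monic) (hlt : p.natDegree < f.natDegree) :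
    (gF0 f p).natDegree = f.natDegree := by
  rw [gF0, natDegree_add_eq_left_of_natDegree_lt]
  · exact hf.natDegree_map C
  · rw [hf.natDegree_map C]
    refine natDegree_mul_le.trans_lt ?_
    rw [natDegree_C, zero_add]
    exact (natDegree_map_le (f := C) (p := p)).trans_lt hlt

theorem gF0_irreducible {f p : L[X]} (hp : p ≠ 0) (hc : IsCoprime p f) : Irreducible (gF0 f p) := by
  have h1 : Irreducible (C p * X + C f : L[X][X]) :=
    irreducible_C_mul_X_add_C hp hc.isRelPrime
  rw [← swap_gF0] at h1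
  exact (MulEquiv.irreducible_iff (Bivariate.swap (R := L)).toMulEquiv).1 h1

theorem gF_monic {f p : L[X]} (hf : f.Monic) (hlt : p.natDegree < f.natDegree) :
    (gF K f p).Monic := by
  rw [← gF0_map]
  exact (gF0_monic hf hlt).map _

theorem gF_natDegree {f p : L[X]} (hf : f.Monic) (hlt : p.natDegree < f.natDegree) :
    (gF K f p).natDegree = f.natDegree := by
  rw [← gF0_map, (gF0_monic hf hlt).natDegree_map, gF0_natDegree hf hlt]

theorem gF_irreducible [IsFractionRing L[X] K] {f p : L[X]} (hf : f.Monic)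
    (hlt : p.natDegree < f.natDegree) (hp : p ≠ 0) (hc : IsCoprime p f) :
    Irreducible (gF K f p) := by
  rw [← gF0_map, ← (gF0_monic hf hlt).irreducible_iff_irreducible_map_fraction_map]
  exact gF0_irreducible hp hc

/-- the norm identity over `L`: even exponents -/
theorem norm_aux {r : ℕ} {f : L[X]} {x y : Fin r → L} (D : Dt f x y) (n : ℕ) :
    ∀ (c : L[X]) (a b : L[X][X]) (e : Fin r → ℕ), c.natDegree ≤ n → c ≠ 0 →
      a ^ 2 - gF0 f (pi x) * b ^ 2 = C c * ∏ i, (X - C (C (x i))) ^ e i → ∀ i, Even (e i) := by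
  have hlt : (pi x).natDegree < f.natDegree := by rw [pi_natDegree]; exact D.lt
  have hGm := gF0_monic D.monic hlt
  have hGd := gF0_natDegree D.monic hlt
  induction n with
  | zero =>
    intro c a b e hcn hc hab
    -- pass to polynomials in `h` over `L[x]`
    have h1 := congrArg (Bivariate.swap (R := L)) hab
    rw [map_sub, map_mul, map_pow, map_pow, swap_gF0, map_mul, map_prod] at h1
    obtain ⟨c₀, rfl⟩ : ∃ c₀, c = C c₀ := ⟨c.coeff 0, eq_C_of_natDegree_le_zero hcn⟩
    have hc₀ : c₀ ≠ 0 := by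
      rintro rfl
      exact hc C_0
    obtain ⟨A, hA⟩ : ∃ A, A = Bivariate.swap (R := L) a := ⟨_, rfl⟩
    obtain ⟨B, hB⟩ : ∃ B, B = Bivariate.swap (R := L) b := ⟨_, rfl⟩
    rw [← hA, ← hB, Bivariate.swap_C_C] at h1
    have h2 : ∀ i, Bivariate.swap (R := L) ((X - C (C (x i))) ^ e i) = C ((X - C (x i)) ^ e i) := by
      intro i
      rw [map_pow, map_sub, Bivariate.swap_Y, Bivariate.swap_C_C, map_pow, C_sub]
    rw [Finset.prod_congr rfl fun i _ => h2 i, ← map_prod, ← C_mul] at h1
    have hR0 : (C c₀ * ∏ i, (X - C (x i)) ^ e i : L[X]) ≠ 0 := by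
      refine mul_ne_zero (C_ne_zero.2 hc₀) (Finset.prod_ne_zero_iff.2 fun i _ => ?_)
      exact pow_ne_zero _ (X_sub_C_ne_zero _)
    have hlin : (C (pi x) * X + C f : L[X][X]).natDegree = 1 := natDegree_linear (pi_monic x).ne_zero
    have hlin0 : (C (pi x) * X + C f : L[X][X]) ≠ 0 := by
      intro h0
      rw [h0, natDegree_zero] at hlin
      exact absurd hlin (by norm_num)
    have hB0 : B = 0 := by
      by_contra hB0
      have h3 : ((C (pi x) * X + C f : L[X][X]) * B ^ 2).natDegree = 1 + 2 * B.natDegree := by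
        rw [natDegree_mul hlin0 (pow_ne_zero 2 hB0), hlin, natDegree_pow]
      have h4 : (A ^ 2).natDegree = 2 * A.natDegree := natDegree_pow _ _
      have h5 : (A ^ 2 - (C (pi x) * X + C f : L[X][X]) * B ^ 2).natDegree ≠ 0 := by
        rcases Nat.lt_or_ge (A ^ 2).natDegree ((C (pi x) * X + C f : L[X][X]) * B ^ 2).natDegree
          with h | h
        · rw [natDegree_sub_eq_right_of_natDegree_lt h, h3]
          omega
        · have h' : ((C (pi x) * X + C f : L[X][X]) * B ^ 2).natDegree < (A ^ 2).natDegree := by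
            omega
          rw [natDegree_sub_eq_left_of_natDegree_lt h']
          omega
      rw [h1, natDegree_C] at h5
      exact h5 rfl
    rw [hB0] at h1
    have h3 : A ^ 2 = C (C c₀ * ∏ i, (X - C (x i)) ^ e i) := by
      rw [← h1]
      ring
    have hA0 : A.natDegree = 0 := by
      have h4 := congrArg natDegree h3
      rw [natDegree_pow, natDegree_C] at h4
      omega
    obtain ⟨w, hw⟩ : ∃ w, A = C w := ⟨A.coeff 0, eq_C_of_natDegree_le_zero hA0.le⟩
    rw [hw, ← C_pow] at h3
    have h4 := C_injective h3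
    intro i
    have h5 : rootMultiplicity (x i) (w ^ 2) = e i := by
      rw [h4, rootMultiplicity_mul hR0, rootMultiplicity_C, zero_add]
      have h6 : (∏ j, (X - C (x j)) ^ e j : L[X]) =
          (X - C (x i)) ^ e i * ∏ j ∈ Finset.univ.erase i, (X - C (x j)) ^ e j :=
        (Finset.mul_prod_erase _ _ (Finset.mem_univ i)).symm
      have h7 : (∏ j ∈ Finset.univ.erase i, (X - C (x j)) ^ e j : L[X]).eval (x i) ≠ 0 := by
        rw [eval_prod, Finset.prod_ne_zero_iff]
        intro j hj
        rw [eval_pow, eval_sub, eval_X, eval_C]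
        refine pow_ne_zero _ (sub_ne_zero.2 fun h => ?_)
        exact (Finset.mem_erase.1 hj).1 (D.inj h.symm)
      have h8 : (∏ j ∈ Finset.univ.erase i, (X - C (x j)) ^ e j : L[X]) ≠ 0 := by
        intro h0
        rw [h0, eval_zero] at h7
        exact h7 rfl
      rw [h6, rootMultiplicity_mul (mul_ne_zero (pow_ne_zero _ (X_sub_C_ne_zero _)) h8),
        rootMultiplicity_X_sub_C_pow, rootMultiplicity_eq_zero (by
          rw [IsRoot]
          exact h7), add_zero]
    have h6 : w ≠ 0 := by
      rintro rfl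
      apply hR0
      rw [← h4]
      ring
    rw [← h5, sq, rootMultiplicity_mul (mul_ne_zero h6 h6)]
    exact ⟨_, rfl⟩
  | succ n ih =>
    intro c a b e hcn hc hab
    by_cases hd : c.natDegree = 0
    · exact ih c a b e (by omega) hc hab
    obtain ⟨S, hS, hSc⟩ := exists_irreducible_of_natDegree_ne_zero hd
    -- modulo `S`
    have : Fact (Irreducible S) := ⟨hS⟩
    let κ := AdjoinRoot S
    let φ : L[X] →+* κ := AdjoinRoot.mk S
    have h1 := congrArg (Polynomial.map φ) hab
    have hc0 : φ c = 0 := AdjoinRoot.mk_eq_zero.2 hSc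
    rw [Polynomial.map_sub, Polynomial.map_mul, Polynomial.map_mul, map_C, hc0, C_0, zero_mul,
      Polynomial.map_pow, Polynomial.map_pow] at h1
    have hGm' : ((gF0 f (pi x)).map φ).natDegree = f.natDegree := by
      rw [hGm.natDegree_map, hGd]
    obtain ⟨ha, hb⟩ := norm_ne (F := (gF0 f (pi x)).map φ) (by rw [hGm']; exact D.odd) h1
    have hdiv : ∀ P : L[X][X], P.map φ = 0 → ∃ P', P = C S * P' := by
      intro P hP
      have h2 : C S ∣ P := by
        rw [C_dvd_iff_dvd_coeff]
        intro i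
        have h3 := congrArg (fun Q => coeff Q i) hP
        simp only [coeff_map, coeff_zero] at h3
        exact AdjoinRoot.mk_eq_zero.1 h3
      exact h2
    obtain ⟨a', rfl⟩ := hdiv a ha
    obtain ⟨b', rfl⟩ := hdiv b hb
    obtain ⟨c', rfl⟩ := hSc
    have hS0 : S ≠ 0 := hS.ne_zero
    have hCS : (C S : L[X][X]) ≠ 0 := C_ne_zero.2 hS0
    have h2 : C S * (a' ^ 2 - gF0 f (pi x) * b' ^ 2) = C c' * ∏ i, (X - C (C (x i))) ^ e i := by
      apply mul_left_cancel₀ hCS
      rw [C_mul] at hab
      linear_combination hab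
    -- `S` divides `c'`
    have h3 : S ∣ c' := by
      have h4 := congrArg (Polynomial.map φ) h2
      have hS1 : φ S = 0 := AdjoinRoot.mk_self
      rw [Polynomial.map_mul, map_C, hS1, C_0, zero_mul, Polynomial.map_mul, map_C] at h4
      have h5 : (Polynomial.map φ (∏ i, (X - C (C (x i))) ^ e i)) ≠ 0 := by
        rw [Polynomial.map_prod, Finset.prod_ne_zero_iff]
        intro i _
        rw [Polynomial.map_pow, Polynomial.map_sub, map_X, map_C]
        exact pow_ne_zero _ (X_sub_C_ne_zero _)
      rcases mul_eq_zero.1 h4.symm with h6 | h6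
      · exact AdjoinRoot.mk_eq_zero.1 (C_eq_zero.1 h6)
      · exact absurd h6 h5
    obtain ⟨c'', rfl⟩ := h3
    have hc'' : c'' ≠ 0 := by
      rintro rfl
      apply hc
      ring
    refine ih c'' a' b' e ?_ hc'' ?_
    · rw [natDegree_mul hS0 (mul_ne_zero hS0 hc''), natDegree_mul hS0 hc''] at hcn
      have := hS.natDegree_pos
      omega
    · apply mul_left_cancel₀ hCS
      rw [h2, C_mul]
      ring

variable [IsFractionRing L[X] K]

/-- a common denominator -/
theorem exists_num (W : K[X]) : ∃ (d : L[X]) (W₀ : L[X][X]), d ≠ 0 ∧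
    W₀.map (algebraMap L[X] K) = C (algebraMap L[X] K d) * W := by
  obtain ⟨d, hd0, hd⟩ := IsLocalization.integerNormalization_spec (nonZeroDivisors L[X]) W
  refine ⟨d, IsLocalization.integerNormalization (nonZeroDivisors L[X]) W,
    nonZeroDivisors.ne_zero hd0, ?_⟩
  rw [hd]
  ext i
  rw [coeff_C_mul, coeff_smul, Algebra.smul_def]

/-- the norm identity over `K`: even exponents -/
theorem norm_even {r : ℕ} {f : L[X]} {x y : Fin r → L} (D : Dt f x y) (W V : K[X]) (c : K)
    (e : Fin r → ℕ) (hc : c ≠ 0)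
    (h : W ^ 2 - gF K f (pi x) * V ^ 2 = C c * ∏ i, (X - C (lk L K (x i))) ^ e i) :
    ∀ i, Even (e i) := by
  obtain ⟨d₁, W₀, hd₁, hW⟩ := exists_num (L := L) W
  obtain ⟨d₂, V₀, hd₂, hV⟩ := exists_num (L := L) V
  obtain ⟨u, v, hv, huv⟩ := IsFractionRing.div_surjective (A := L[X]) c
  have hv0 : v ≠ 0 := nonZeroDivisors.ne_zero hv
  have hι : Function.Injective (algebraMap L[X] K) := IsFractionRing.injective _ _
  have hv1 : algebraMap L[X] K v ≠ 0 := fun h0 => hv0 (by
    apply hι
    rw [h0, map_zero])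
  have hu0 : u ≠ 0 := by
    rintro rfl
    rw [map_zero, zero_div] at huv
    exact hc huv.symm
  have hcv : algebraMap L[X] K v * c = algebraMap L[X] K u := by
    rw [← huv]
    field_simp
  refine norm_aux D _ (d₁ ^ 2 * d₂ ^ 2 * v * u) (C (d₂ * v) * W₀) (C (d₁ * v) * V₀) e le_rfl ?_ ?_
  · exact mul_ne_zero (mul_ne_zero (mul_ne_zero (pow_ne_zero _ hd₁) (pow_ne_zero _ hd₂)) hv0) hu0
  · apply map_injective _ hι
    rw [Polynomial.map_sub, Polynomial.map_mul, Polynomial.map_mul, Polynomial.map_pow,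
      Polynomial.map_pow, gF0_map, Polynomial.map_mul, Polynomial.map_mul, hW, hV, map_C, map_C,
      map_C, Polynomial.map_prod]
    have h2 : ∀ i, ((X - C (C (x i)) : L[X][X]) ^ e i).map (algebraMap L[X] K) =
        (X - C (lk L K (x i))) ^ e i := by
      intro i
      rw [Polynomial.map_pow, Polynomial.map_sub, map_X, map_C]
      rfl
    rw [Finset.prod_congr rfl fun i _ => h2 i]
    have h3 : (C (algebraMap L[X] K (d₁ ^ 2 * d₂ ^ 2 * v * u)) : K[X]) =
        C (algebraMap L[X] K (d₁ * d₂ * v)) ^ 2 * C c := by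
      rw [← C_pow, ← C_mul]
      congr 1
      rw [map_mul, map_mul, map_mul, map_mul, map_mul, ← hcv, map_pow, map_pow]
      ring
    rw [h3]
    simp only [map_mul, C_mul]
    linear_combination (C (algebraMap L[X] K d₁) * C (algebraMap L[X] K d₂) *
      C (algebraMap L[X] K v)) ^ 2 * h

end

end Q45.UH
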