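import Pool.Agent.Q45.UH.Fam

/-!
# The sum of the traces over the family
-/

set_option autoImplicit false

open Polynomial Finset

namespace Q45.UH

open Pool.Agent.H341R2.Sharp

section

variable {F : Type} [Field F] [Fintype F] [DecidableEq F] {r j : ℕ}

/-- the character sum of `f` -/
noncomputable def SS (f : F[X]) : ℤ := ∑ z : F, quadraticChar F (f.eval z)

theorem SS_bound (hF : ringChar F ≠ 2) {f : F[X]} (hf : f.Monic) (hodd : Odd f.natDegree) :
    |(SS f : ℝ)| ≤ f.natDegree * Real.sqrt (Fintype.card F) := by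
  have h1 := weil_sharp hF f hodd.pos (by
    intro c h hc
    have h3 : f ≠ 0 := hf.ne_zero
    have hc0 : c ≠ 0 := by
      rintro rfl
      rw [C_0, zero_mul] at hc
      exact h3 hc
    rw [hc, natDegree_C_mul hc0, natDegree_pow] at hodd
    obtain ⟨a, ha⟩ := hodd
    omega)
  unfold SS
  push_cast
  refine h1.trans ?_
  have := Real.sqrt_nonneg (Fintype.card F)
  nlinarith

/-- sum over `h_0` at a point away from the marked points -/
theorem sum_lin (hF : ringChar F ≠ 2) (a : F) {b : F} (hb : b ≠ 0) :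
    ∑ c : F, quadraticChar F (a + c * b) = 0 := by
  have h1 := quadraticChar_sum_zero hF
  rw [← h1]
  exact Fintype.sum_equiv ((Equiv.mulRight₀ b hb).trans (Equiv.addLeft a)) _ _ (fun c => rfl)

omit [DecidableEq F] in
theorem sum_cons {A : Type} [AddCommMonoid A] (g : (Fin (j + 1) → F) → A) :
    ∑ h : Fin (j + 1) → F, g h = ∑ h' : Fin j → F, ∑ c : F, g (Fin.cons c h') := by
  rw [← Equiv.sum_comp (Fin.consEquiv fun _ : Fin (j + 1) => F) g, Fintype.sum_prod_type,
    sum_comm]
  rfl

/-- the sum over one node -/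
theorem sum_node (hF : ringChar F ≠ 2) {b : F[X]} {x : Fin r → F} (hx : Function.Injective x)
    (i : Fin r) : ∑ y : Fin r → F, ∑ h : Fin (j + 1) → F,
      quadraticChar F ((fval b x y h).eval (x i)) =
      ((Fintype.card F : ℤ) - 1) * (Fintype.card F : ℤ) ^ (r + j) := by
  simp only [fval_eval hx, sum_const, card_univ, Fintype.card_pi, prod_const, Fintype.card_fin,
    nsmul_eq_mul, Nat.cast_pow]
  rw [← mul_sum]
  have h1 : ∀ y : Fin r → F, quadraticChar F (y i ^ 2) = if y i = 0 then 0 else 1 := by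
    intro y
    split_ifs with h
    · rw [h]
      simp
    · rw [map_pow, quadraticChar_sq_one h]
  rw [sum_congr rfl fun y _ => h1 y]
  -- sum over the `i`-th coordinate
  obtain ⟨r', rfl⟩ : ∃ r', r = r' + 1 := ⟨r - 1, by have := i.2; omega⟩
  have h2 : ∑ y : Fin (r' + 1) → F, (if y i = 0 then (0 : ℤ) else 1) =
      ((Fintype.card F : ℤ) - 1) * (Fintype.card F : ℤ) ^ r' := by
    rw [← Equiv.sum_comp (Fin.insertNthEquiv (fun _ : Fin (r' + 1) => F) i)
      (fun y : Fin (r' + 1) → F => if y i = 0 then (0 : ℤ) else 1), Fintype.sum_prod_type]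
    have h3 : ∀ (a : F) (y : Fin r' → F),
        (if (Fin.insertNthEquiv (fun _ : Fin (r' + 1) => F) i) (a, y) i = 0 then (0 : ℤ) else 1) =
        if a = 0 then 0 else 1 := by
      intro a y
      have : (Fin.insertNthEquiv (fun _ : Fin (r' + 1) => F) i) (a, y) i = a := by
        simp [Fin.insertNthEquiv]
      rw [this]
    rw [sum_congr rfl fun a _ => sum_congr rfl fun y _ => h3 a y]
    simp only [sum_const, card_univ, Fintype.card_pi, prod_const, Fintype.card_fin, nsmul_eq_mul,
      Nat.cast_pow]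
    rw [← mul_sum]
    have h4 : ∑ a : F, (if a = 0 then (0 : ℤ) else 1) = (Fintype.card F : ℤ) - 1 := by
      have h5 : ∀ a : F, (if a = 0 then (0 : ℤ) else 1) = 1 - if a = 0 then 1 else 0 := by
        intro a
        split_ifs <;> norm_num
      rw [sum_congr rfl fun a _ => h5 a, sum_sub_distrib, sum_ite_eq']
      simp
    rw [h4]
    ring
  rw [h2]
  ring

/-- the sum away from the nodes -/
theorem sum_off (hF : ringChar F ≠ 2) {b : F[X]} {x : Fin r → F} (z : F) (hz : ∀ i, x i ≠ z) :
    ∑ y : Fin r → F, ∑ h : Fin (j + 1) → F, quadraticChar F ((fval b x y h).eval z) = 0 := by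
  refine sum_eq_zero fun y _ => ?_
  rw [sum_cons]
  refine sum_eq_zero fun h' _ => ?_
  have h1 := sum_lin hF ((f1 b x y h').eval z) (pi_eval_ne hz)
  rw [← h1]
  refine sum_congr rfl fun c _ => ?_
  rw [fval_cons, eval_add, eval_mul, eval_C]

/-- the sum of the character sums over the family with fixed different nodes -/
theorem sum_SS (hF : ringChar F ≠ 2) {b : F[X]} {x : Fin r → F} (hx : Function.Injective x) :
    ∑ y : Fin r → F, ∑ h : Fin (j + 1) → F, SS (fval b x y h) =
      r * (((Fintype.card F : ℤ) - 1) * (Fintype.card F : ℤ) ^ (r + j)) := by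
  unfold SS
  have h1 : ∑ y : Fin r → F, ∑ h : Fin (j + 1) → F, ∑ z : F,
      quadraticChar F ((fval b x y h).eval z) = ∑ z : F, ∑ y : Fin r → F, ∑ h : Fin (j + 1) → F,
      quadraticChar F ((fval b x y h).eval z) := by
    rw [sum_congr rfl fun y _ => sum_comm]
    exact sum_comm
  rw [h1, ← sum_filter_add_sum_filter_not univ (fun z : F => ∃ i, x i = z)]
  have h2 : ∑ z ∈ univ.filter (fun z : F => ¬ ∃ i, x i = z), ∑ y : Fin r → F,
      ∑ h : Fin (j + 1) → F, quadraticChar F ((fval b x y h).eval z) = 0 := by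
    refine sum_eq_zero fun z hz => ?_
    rw [mem_filter] at hz
    exact sum_off hF z fun i hi => hz.2 ⟨i, hi⟩
  have h3 : univ.filter (fun z : F => ∃ i, x i = z) = univ.image x := by
    ext z
    simp
  rw [h2, add_zero, h3, sum_image (fun a _ b _ h => hx h)]
  rw [sum_congr rfl fun i _ => sum_node hF hx i, sum_const, card_univ, Fintype.card_fin,
    nsmul_eq_mul]

end

end Q45.UH
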