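import Pool.Agent.Q45.UH.Cnt

/-!
# Counting the bad members and the main estimate
-/

set_option autoImplicit false

open Polynomial Finset

namespace Q45.UH

section

variable {F : Type} [Field F] [Fintype F] [DecidableEq F] {r j : ℕ}

omit [Field F] in
theorem card_coord {m : ℕ} (i : Fin m) (a : F) :
    (univ.filter fun v : Fin m → F => v i = a).card * Fintype.card F = Fintype.card F ^ m := by
  obtain ⟨m', rfl⟩ : ∃ m', m = m' + 1 := ⟨m - 1, by have := i.2; omega⟩
  have h1 : (univ.filter fun v : Fin (m' + 1) → F => v i = a).card = Fintype.card F ^ m' := by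
    have h0 : Fintype.card F ^ m' = (univ : Finset (Fin m' → F)).card := by
      rw [card_univ, Fintype.card_fun, Fintype.card_fin]
    rw [h0]
    refine card_bij (fun v _ => i.removeNth v) (fun _ _ => mem_univ _) ?_ ?_
    · intro v hv w hw h
      have e1 := Fin.insertNth_self_removeNth i v
      have e2 := Fin.insertNth_self_removeNth i w
      rw [mem_filter] at hv hw
      rw [← e1, ← e2, hv.2, hw.2, h]
    · intro w _
      refine ⟨i.insertNth a w, ?_, ?_⟩
      · rw [mem_filter]
        exact ⟨mem_univ _, by simp⟩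
      · simp
  rw [h1, pow_succ]

omit [Field F] in
theorem card_diag {m : ℕ} (i k : Fin m) (hik : i ≠ k) :
    (univ.filter fun v : Fin m → F => v i = v k).card * Fintype.card F = Fintype.card F ^ m := by
  obtain ⟨m', rfl⟩ : ∃ m', m = m' + 1 := ⟨m - 1, by have := i.2; omega⟩
  obtain ⟨k', rfl⟩ := Fin.exists_succAbove_eq hik.symm
  have h1 : (univ.filter fun v : Fin (m' + 1) → F => v i = v (i.succAbove k')).card =
      Fintype.card F ^ m' := by
    have h0 : Fintype.card F ^ m' = (univ : Finset (Fin m' → F)).card := by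
      rw [card_univ, Fintype.card_fun, Fintype.card_fin]
    rw [h0]
    refine card_bij (fun v _ => i.removeNth v) (fun _ _ => mem_univ _) ?_ ?_
    · intro v hv w hw h
      have e1 := Fin.insertNth_self_removeNth i v
      have e2 := Fin.insertNth_self_removeNth i w
      rw [mem_filter] at hv hw
      have e3 : v (i.succAbove k') = w (i.succAbove k') := congrFun h k'
      rw [← e1, ← e2, hv.2, hw.2, e3, h]
    · intro w _
      refine ⟨i.insertNth (w k') w, ?_, ?_⟩
      · rw [mem_filter]
        exact ⟨mem_univ _, by simp⟩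
      · simp
  rw [h1, pow_succ]

omit [Field F] in
/-- the number of the tuples which are not injective -/
theorem card_not_inj : (univ.filter fun x : Fin r → F => ¬ Function.Injective x).card *
    Fintype.card F ≤ r ^ 2 * Fintype.card F ^ r := by
  have h1 : (univ.filter fun x : Fin r → F => ¬ Function.Injective x) ⊆
      (univ.filter fun p : Fin r × Fin r => p.1 ≠ p.2).biUnion
        fun p => univ.filter fun x : Fin r → F => x p.1 = x p.2 := by
    intro x hx
    rw [mem_filter, Function.Injective] at hx
    have h2 := hx.2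
    push Not at h2
    obtain ⟨a, b, h3, h4⟩ := h2
    rw [mem_biUnion]
    exact ⟨(a, b), by simp [h4], by simp [h3]⟩
  have h2 := (card_le_card h1).trans card_biUnion_le
  calc _ ≤ (∑ p ∈ univ.filter fun p : Fin r × Fin r => p.1 ≠ p.2,
        (univ.filter fun x : Fin r → F => x p.1 = x p.2).card) * Fintype.card F :=
        Nat.mul_le_mul_right _ h2
    _ = ∑ p ∈ univ.filter fun p : Fin r × Fin r => p.1 ≠ p.2, Fintype.card F ^ r := by
        rw [sum_mul]
        refine sum_congr rfl fun p hp => ?_
        rw [mem_filter] at hp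
        exact card_diag p.1 p.2 hp.2
    _ ≤ r ^ 2 * Fintype.card F ^ r := by
        rw [sum_const, nsmul_eq_mul, Nat.cast_id]
        refine Nat.mul_le_mul_right _ ?_
        refine (card_le_univ _).trans (le_of_eq ?_)
        rw [Fintype.card_prod, Fintype.card_fin, sq]

open Classical in
/-- for fixed `y` and `h_1, ...` the number of bad `h_0` -/
theorem card_bad0 {b : F[X]} (hb : b.Monic) {x : Fin r → F} (hx : Function.Injective x)
    (hd : r + j < b.natDegree) (hrj : 0 < r + j) (y : Fin r → F) (h' : Fin j → F) :
    (univ.filter fun c : F => ¬ Squarefree (f1 b x y h' + C c * pi x)).card ≤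
      (b.natDegree + r) + Fintype.card F * ((∑ i : Fin r, if y i = 0 then 1 else 0) +
        ∑ l : Fin j, if h' l = - b.coeff 1 then 1 else 0) := by
  by_cases hE : (∃ i, y i = 0) ∨ ∃ l, h' l = - b.coeff 1
  · have h1 : 1 ≤ (∑ i : Fin r, if y i = 0 then 1 else 0) +
        ∑ l : Fin j, if h' l = - b.coeff 1 then 1 else 0 := by
      rcases hE with ⟨i, hi⟩ | ⟨l, hl⟩
      · have := single_le_sum (f := fun i : Fin r => if y i = 0 then 1 else 0)
          (fun _ _ => Nat.zero_le _) (mem_univ i)
        simp only [hi, if_true] at this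
        omega
      · have := single_le_sum (f := fun l : Fin j => if h' l = - b.coeff 1 then 1 else 0)
          (fun _ _ => Nat.zero_le _) (mem_univ l)
        simp only [hl, if_true] at this
        omega
    have h2 : (univ.filter fun c : F => ¬ Squarefree (f1 b x y h' + C c * pi x)).card ≤
        Fintype.card F := card_le_univ _
    refine h2.trans ((Nat.le_mul_of_pos_right _ h1).trans ?_)
    exact Nat.le_add_left _ _
  · push Not at hE
    have hf := f1_natDegree (y := y) hb hx h' hd
    have h0 : ∀ i, (f1 b x y h').eval (x i) ≠ 0 := by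
      intro i
      rw [f1_eval hx]
      exact pow_ne_zero 2 (hE.1 i)
    have hW : wr (f1 b x y h') (pi x) ≠ 0 := by
      rcases Nat.eq_zero_or_pos r with hr | hr
      · subst hr
        obtain ⟨j', rfl⟩ : ∃ j', j = j' + 1 := ⟨j - 1, by omega⟩
        have hpi : pi x = 1 := by simp [pi]
        rw [wr, hpi, derivative_one, mul_zero, mul_one, zero_sub, neg_ne_zero]
        intro h3
        have h4 := congrArg (fun p : F[X] => p.coeff 0) h3
        simp only [coeff_derivative, coeff_zero, Nat.cast_zero, zero_add, mul_one] at h4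
        apply hE.2 0
        rw [f1, hpi, one_mul, inter] at h4
        rw [univ_eq_empty, Lagrange.interpolate_empty, add_zero, coeff_add, finsetSum_coeff] at h4
        rw [Finset.sum_eq_single (0 : Fin (j' + 1))] at h4
        · rw [coeff_C_mul, Fin.val_zero, zero_add, pow_one, coeff_X_one, mul_one] at h4
          linear_combination h4
        · intro l _ hl
          rw [coeff_C_mul, coeff_X_pow, if_neg, mul_zero]
          intro h5
          apply hl
          apply Fin.ext
          rw [Fin.val_zero]
          omega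
        · intro h; exact absurd (mem_univ _) h
      · exact wr_ne_pos hx h' ⟨0, hr⟩ (hE.1 _)
    refine (card_nsq h0 hW).trans ?_
    rw [hf]
    exact Nat.le_add_right _ _

/-- the number of the bad members with fixed different nodes -/
theorem card_bad {b : F[X]} (hb : b.Monic) {x : Fin r → F} (hx : Function.Injective x)
    (hd : r + j < b.natDegree) (hrj : 0 < r + j) :
    (∑ y : Fin r → F, ∑ h : Fin (j + 1) → F,
      (open Classical in if Squarefree (fval b x y h) then (0 : ℝ) else 1)) ≤
      (b.natDegree + 2 * r + j : ℕ) * (Fintype.card F : ℝ) ^ (r + j) := by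
  classical
  have h1 : ∀ y : Fin r → F, ∑ h : Fin (j + 1) → F,
      (open Classical in if Squarefree (fval b x y h) then (0 : ℝ) else 1) ≤
      ∑ h' : Fin j → F, ((b.natDegree + r : ℕ) + Fintype.card F *
        ((∑ i : Fin r, if y i = 0 then (1 : ℝ) else 0) +
          ∑ l : Fin j, if h' l = - b.coeff 1 then (1 : ℝ) else 0)) := by
    intro y
    rw [sum_cons]
    refine sum_le_sum fun h' _ => ?_
    have h2 := card_bad0 hb hx hd hrj y h'
    have h3 : ∑ c : F, (open Classical in if Squarefree (fval b x y
        (Fin.cons c h' : Fin (j + 1) → F)) then (0 : ℝ) else 1) =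
        ((univ.filter fun c : F => ¬ Squarefree (f1 b x y h' + C c * pi x)).card : ℝ) := by
      rw [card_filter]
      push_cast
      refine sum_congr rfl fun c _ => ?_
      rw [fval_cons]
      by_cases h : Squarefree (f1 b x y h' + C c * pi x)
      · rw [if_pos h, if_neg (not_not.2 h)]
      · rw [if_neg h, if_pos h]
    rw [h3]
    have h4 : ((univ.filter fun c : F => ¬ Squarefree (f1 b x y h' + C c * pi x)).card : ℝ) ≤
      (((b.natDegree + r) + Fintype.card F * ((∑ i : Fin r, if y i = 0 then 1 else 0) +
        ∑ l : Fin j, if h' l = - b.coeff 1 then 1 else 0) : ℕ) : ℝ) := by exact_mod_cast h2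
    refine h4.trans (le_of_eq ?_)
    push_cast
    rfl
  have hS : ∀ (m : ℕ) (a : F), (Fintype.card F : ℝ) *
      ∑ v : Fin m → F, ∑ i : Fin m, (if v i = a then (1 : ℝ) else 0) =
      m * (Fintype.card F : ℝ) ^ m := by
    intro m a
    rw [sum_comm, mul_sum]
    have h5 : ∀ i : Fin m, (Fintype.card F : ℝ) * ∑ v : Fin m → F, (if v i = a then (1 : ℝ) else 0) =
        (Fintype.card F : ℝ) ^ m := by
      intro i
      have h6 := card_coord (F := F) i a
      have h7 : ∑ v : Fin m → F, (if v i = a then (1 : ℝ) else 0) =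
          ((univ.filter fun v : Fin m → F => v i = a).card : ℝ) := by
        rw [card_filter]
        push_cast
        rfl
      rw [h7, mul_comm]
      exact_mod_cast h6
    rw [sum_congr rfl fun i _ => h5 i, sum_const, card_univ, Fintype.card_fin, nsmul_eq_mul]
  refine (sum_le_sum fun y _ => h1 y).trans (le_of_eq ?_)
  have e1 := hS r 0
  have e2 := hS j (- b.coeff 1)
  simp only [mul_add, sum_add_distrib, sum_const, card_univ, Fintype.card_fun, Fintype.card_fin,
    nsmul_eq_mul, ← mul_sum]
  rw [e1, e2]
  push_cast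
  ring

/-- the trace: zero if the polynomial is not squarefree -/
noncomputable def tS (f : F[X]) : ℝ := open Classical in if Squarefree f then - (SS f : ℝ) else 0

theorem tS_bound (hF : ringChar F ≠ 2) {f : F[X]} (hf : f.Monic) (hodd : Odd f.natDegree) :
    |tS f| ≤ f.natDegree * Real.sqrt (Fintype.card F) := by
  unfold tS
  split_ifs
  · rw [abs_neg]
    exact SS_bound hF hf hodd
  · rw [abs_zero]
    positivity

/-- the sum of the traces over the family with fixed different nodes -/
theorem sum_tS (hF : ringChar F ≠ 2) {b : F[X]} (hb : b.Monic) (hodd : Odd b.natDegree)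
    {x : Fin r → F} (hx : Function.Injective x) (hd : r + j < b.natDegree) (hrj : 0 < r + j) :
    |∑ y : Fin r → F, ∑ h : Fin (j + 1) → F, tS (fval b x y h) +
      r * (Fintype.card F : ℝ) ^ (r + j + 1)| ≤
      (r + (b.natDegree + 2 * r + j : ℕ) * b.natDegree) * ((Fintype.card F : ℝ) ^ (r + j) *
        Real.sqrt (Fintype.card F)) := by
  classical
  have h1 := sum_SS (j := j) hF (b := b) hx
  have h2 := card_bad hb hx hd hrj
  have hq : (1 : ℝ) ≤ Fintype.card F := by exact_mod_cast Fintype.card_pos
  have hs : (1 : ℝ) ≤ Real.sqrt (Fintype.card F) := by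
    rw [Real.one_le_sqrt]
    exact hq
  have h3 : ∑ y : Fin r → F, ∑ h : Fin (j + 1) → F, tS (fval b x y h) =
      - (∑ y : Fin r → F, ∑ h : Fin (j + 1) → F, (SS (fval b x y h) : ℝ)) +
      ∑ y : Fin r → F, ∑ h : Fin (j + 1) → F,
        (if Squarefree (fval b x y h) then 0 else (SS (fval b x y h) : ℝ)) := by
    rw [← sum_neg_distrib, ← sum_add_distrib]
    refine sum_congr rfl fun y _ => ?_
    rw [← sum_neg_distrib, ← sum_add_distrib]
    refine sum_congr rfl fun h _ => ?_
    unfold tS
    split_ifs
    · rw [add_zero]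
    · rw [neg_add_cancel]
  have h4 : ∑ y : Fin r → F, ∑ h : Fin (j + 1) → F, (SS (fval b x y h) : ℝ) =
      r * (((Fintype.card F : ℝ) - 1) * (Fintype.card F : ℝ) ^ (r + j)) := by
    exact_mod_cast h1
  have h5 : |∑ y : Fin r → F, ∑ h : Fin (j + 1) → F,
        (if Squarefree (fval b x y h) then 0 else (SS (fval b x y h) : ℝ))| ≤
      ((b.natDegree + 2 * r + j : ℕ) * (Fintype.card F : ℝ) ^ (r + j)) *
        (b.natDegree * Real.sqrt (Fintype.card F)) := by
    refine (abs_sum_le_sum_abs _ _).trans ?_
    refine (sum_le_sum fun y _ => abs_sum_le_sum_abs _ _).trans ?_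
    refine le_trans ?_ (mul_le_mul_of_nonneg_right h2 (by positivity))
    rw [sum_mul]
    refine sum_le_sum fun y _ => ?_
    rw [sum_mul]
    refine sum_le_sum fun h _ => ?_
    have h6 := fval_monic (y := y) hb hx h hd
    have h7 := SS_bound hF h6.1 (by rw [h6.2]; exact hodd)
    rw [h6.2] at h7
    split_ifs
    · rw [abs_zero, zero_mul]
    · rw [one_mul]
      exact h7
  have h6 : ∑ y : Fin r → F, ∑ h : Fin (j + 1) → F, tS (fval b x y h) +
      r * (Fintype.card F : ℝ) ^ (r + j + 1) = r * (Fintype.card F : ℝ) ^ (r + j) +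
      ∑ y : Fin r → F, ∑ h : Fin (j + 1) → F,
        (if Squarefree (fval b x y h) then 0 else (SS (fval b x y h) : ℝ)) := by
    rw [h3, h4, pow_succ]
    ring
  rw [h6]
  refine (abs_add_le _ _).trans ?_
  have h7 : |(r : ℝ) * (Fintype.card F : ℝ) ^ (r + j)| ≤ r * ((Fintype.card F : ℝ) ^ (r + j) *
        Real.sqrt (Fintype.card F)) := by
    rw [abs_of_nonneg (by positivity)]
    refine mul_le_mul_of_nonneg_left ?_ (by positivity)
    exact le_mul_of_one_le_right (by positivity) hs
  refine (add_le_add h7 h5).trans (le_of_eq ?_)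
  push_cast
  ring

/-- the trace of a member of the family: zero if the nodes are not different -/
noncomputable def tG (b : F[X]) (x y : Fin r → F) (h : Fin (j + 1) → F) : ℝ :=
  open Classical in if Function.Injective x then tS (fval b x y h) else 0

theorem tG_bound (hF : ringChar F ≠ 2) {b : F[X]} (hb : b.Monic) (hodd : Odd b.natDegree)
    (hd : r + j < b.natDegree) (x y : Fin r → F) (h : Fin (j + 1) → F) :
    |tG b x y h| ≤ b.natDegree * Real.sqrt (Fintype.card F) := by
  unfold tG
  split_ifs with hx
  · have h6 := fval_monic (y := y) hb hx h hd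
    have h7 := tS_bound hF h6.1 (by rw [h6.2]; exact hodd)
    rw [h6.2] at h7
    exact h7
  · rw [abs_zero]
    positivity

/-- the sum of the traces over the family -/
theorem sum_tG (hF : ringChar F ≠ 2) {b : F[X]} (hb : b.Monic) (hodd : Odd b.natDegree)
    (hd : r + j < b.natDegree) (hrj : 0 < r + j) :
    |∑ x : Fin r → F, ∑ y : Fin r → F, ∑ h : Fin (j + 1) → F, tG b x y h +
      r * (Fintype.card F : ℝ) ^ (2 * r + j + 1)| ≤
      (r + (b.natDegree + 2 * r + j : ℕ) * b.natDegree + r ^ 3) *
        ((Fintype.card F : ℝ) ^ (2 * r + j) * Real.sqrt (Fintype.card F)) := by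
  classical
  have hq : (1 : ℝ) ≤ Fintype.card F := by exact_mod_cast Fintype.card_pos
  have hs : (1 : ℝ) ≤ Real.sqrt (Fintype.card F) := by
    rw [Real.one_le_sqrt]
    exact hq
  set q : ℝ := (Fintype.card F : ℝ) with hqd
  have h1 : ∑ x : Fin r → F, ∑ y : Fin r → F, ∑ h : Fin (j + 1) → F, tG b x y h +
      r * q ^ (2 * r + j + 1) = ∑ x : Fin r → F,
        (∑ y : Fin r → F, ∑ h : Fin (j + 1) → F, tG b x y h + r * q ^ (r + j + 1)) := by
    rw [sum_add_distrib, sum_const, card_univ, Fintype.card_fun, Fintype.card_fin, nsmul_eq_mul]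
    push_cast
    rw [← hqd]
    ring
  rw [h1]
  refine (abs_sum_le_sum_abs _ _).trans ?_
  have h2 : ∀ x : Fin r → F,
      |∑ y : Fin r → F, ∑ h : Fin (j + 1) → F, tG b x y h + r * q ^ (r + j + 1)| ≤
      (r + (b.natDegree + 2 * r + j : ℕ) * b.natDegree) * (q ^ (r + j) * Real.sqrt q) +
        (if Function.Injective x then 0 else (1 : ℝ)) * (r * q ^ (r + j + 1)) := by
    intro x
    by_cases hx : Function.Injective x
    · rw [if_pos hx, zero_mul, add_zero]
      have h3 := sum_tS hF hb hodd hx hd hrj
      rw [← hqd] at h3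
      refine le_trans (le_of_eq ?_) h3
      congr 2
      refine sum_congr rfl fun y _ => sum_congr rfl fun h _ => ?_
      rw [tG, if_pos hx]
    · rw [if_neg hx, one_mul]
      have h3 : ∑ y : Fin r → F, ∑ h : Fin (j + 1) → F, tG b x y h = 0 := by
        refine sum_eq_zero fun y _ => sum_eq_zero fun h _ => ?_
        rw [tG, if_neg hx]
      rw [h3, zero_add, abs_of_nonneg (by positivity)]
      exact le_add_of_nonneg_left (by positivity)
  refine (sum_le_sum fun x _ => h2 x).trans ?_
  rw [sum_add_distrib, sum_const, card_univ, Fintype.card_fun, Fintype.card_fin, nsmul_eq_mul,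
    ← sum_mul]
  have h4 : (∑ x : Fin r → F, if Function.Injective x then (0 : ℝ) else 1) * q ≤ r ^ 2 * q ^ r := by
    have h5 := card_not_inj (F := F) (r := r)
    have h6 : (∑ x : Fin r → F, if Function.Injective x then (0 : ℝ) else 1) =
        ((univ.filter fun x : Fin r → F => ¬ Function.Injective x).card : ℝ) := by
      rw [card_filter]
      push_cast
      refine sum_congr rfl fun c _ => ?_
      by_cases h : Function.Injective c
      · rw [if_pos h, if_neg (not_not.2 h)]
      · rw [if_neg h, if_pos h]
    rw [h6, hqd]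
    exact_mod_cast h5
  have h7 : (∑ x : Fin r → F, if Function.Injective x then (0 : ℝ) else 1) *
      (r * q ^ (r + j + 1)) ≤ r ^ 3 * (q ^ (2 * r + j) * Real.sqrt q) := by
    calc (∑ x : Fin r → F, if Function.Injective x then (0 : ℝ) else 1) * (r * q ^ (r + j + 1)) =
        ((∑ x : Fin r → F, if Function.Injective x then (0 : ℝ) else 1) * q) *
          (r * q ^ (r + j)) := by rw [pow_succ]; ring
      _ ≤ (r ^ 2 * q ^ r) * (r * q ^ (r + j)) := mul_le_mul_of_nonneg_right h4 (by positivity)
      _ = r ^ 3 * q ^ (2 * r + j) := by ring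
      _ ≤ r ^ 3 * (q ^ (2 * r + j) * Real.sqrt q) := by
          refine mul_le_mul_of_nonneg_left ?_ (by positivity)
          exact le_mul_of_one_le_right (by positivity) hs
  refine (add_le_add le_rfl h7).trans (le_of_eq ?_)
  push_cast
  rw [← hqd]
  ring

end

end Q45.UH
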