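import Pool.Agent.TH958.An.Main

/-!
# Euler products over a family of places, with main terms only at the places of degree one

(adapted from `Pool.Agent.TH958.An.Core` and `Main`: general Euler factors)
-/

set_option autoImplicit false

namespace Q45.UH

open Pool.Agent.H126R3 (Qc Qc_pos Qc_rpow summable_Q)
open Pool.Agent.TH958.An (qq qq_pos qq_eq summ_ind)

section

variable {Y : Type} (pk : Y → Nat.Primes × ℕ)

/-- The data of an Euler product: the logarithm of the Euler factor is `ag q ^ (-s) + rho s`. -/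
structure Dat (pk : Y → Nat.Primes × ℕ) (e : ℕ) where
  fin : ∀ c, Fintype {y // pk y = c}
  C : ℝ
  hC : 0 ≤ C
  hcard : ∀ c, (Nat.card {y // pk y = c} : ℝ) ≤ C * (Qc c : ℝ) ^ (e : ℝ)
  G : Y → Prop
  ag : Y → ℝ
  B : ℝ
  hB : 0 ≤ B
  hag : ∀ y, |ag y| ≤ B * Real.sqrt (qq pk y)
  rho : Y → ℂ → ℂ
  h0 : ∀ y, ¬ G y → ag y = 0
  h0' : ∀ y s, ¬ G y → rho y s = 0
  rho_diff : ∀ y s, 11 / 6 < s.re → DifferentiableAt ℂ (rho y) s
  B' : ℝ
  hB' : 0 ≤ B'
  rho_norm : ∀ y s, 11 / 6 ≤ s.re → ‖rho y s‖ ≤ B' * (qq pk y : ℝ) ^ (-(2 * s.re - 1))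
  he : 1 ≤ e

variable {pk} {e : ℕ} (D : Dat pk e)

include D in
theorem summable_y (α : ℝ) (hα : (e : ℝ) + 1 < α) :
    Summable (fun y : Y => (qq pk y : ℝ) ^ (-α)) := by
  letI := D.fin
  rw [← (Equiv.sigmaFiberEquiv pk).summable_iff]
  have h0 : ∀ w : (Σ c, {y : Y // pk y = c}),
      ((fun y : Y => (qq pk y : ℝ) ^ (-α)) ∘ (Equiv.sigmaFiberEquiv pk)) w =
        (Qc w.1 : ℝ) ^ (-α) := by
    intro w
    rcases w with ⟨c, y⟩
    change (qq pk y.1 : ℝ) ^ (-α) = _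
    rw [qq_eq]
  rw [summable_congr h0, summable_sigma_of_nonneg (fun _ => by positivity)]
  refine ⟨fun c => (hasSum_fintype _).summable, ?_⟩
  have he1 : (1 : ℝ) ≤ e := by exact_mod_cast D.he
  have h1 := (summable_Q (α - e) (by linarith) 0 (by push_cast; linarith)).mul_left D.C
  refine Summable.of_nonneg_of_le (fun c => tsum_nonneg fun _ => by positivity) (fun c => ?_) h1
  rw [if_pos (Nat.zero_le _), tsum_fintype]
  change ∑ _b : {y : Y // pk y = c}, (Qc c : ℝ) ^ (-α) ≤ _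
  rw [Finset.sum_const, Finset.card_univ, nsmul_eq_mul, ← Nat.card_eq_fintype_card]
  have h2 := D.hcard c
  have hQ : (0 : ℝ) < Qc c := by exact_mod_cast Qc_pos c
  calc (Nat.card {y : Y // pk y = c} : ℝ) * (Qc c : ℝ) ^ (-α) ≤
      (D.C * (Qc c : ℝ) ^ (e : ℝ)) * (Qc c : ℝ) ^ (-α) :=
        mul_le_mul_of_nonneg_right h2 (by positivity)
    _ = D.C * (Qc c : ℝ) ^ (-(α - e)) := by
        rw [mul_assoc, ← Real.rpow_add hQ]
        congr 2
        ring

theorem term_norm (y : Y) (s : ℂ) :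
    ‖(D.ag y : ℂ) * (qq pk y : ℂ) ^ (-s)‖ ≤ D.B * (qq pk y : ℝ) ^ (-(s.re - 1 / 2)) := by
  have hq : (0 : ℝ) < qq pk y := by exact_mod_cast qq_pos pk y
  rw [norm_mul, Complex.norm_natCast_cpow_of_pos (qq_pos pk y), Complex.norm_real, Real.norm_eq_abs]
  calc |D.ag y| * (qq pk y : ℝ) ^ (-s).re ≤ (D.B * Real.sqrt (qq pk y)) * (qq pk y : ℝ) ^ (-s).re :=
        mul_le_mul_of_nonneg_right (D.hag y) (by positivity)
    _ = D.B * (qq pk y : ℝ) ^ (-(s.re - 1 / 2)) := by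
        rw [Real.sqrt_eq_rpow, mul_assoc, ← Real.rpow_add hq, Complex.neg_re]
        congr 2
        ring

theorem rho_summable (s : ℂ) (hs : (e : ℝ) + 5 / 6 ≤ s.re) :
    Summable (fun y => D.rho y s) := by
  have hn' : (1 : ℝ) ≤ e := by exact_mod_cast D.he
  refine Summable.of_norm_bounded
    ((summable_y D (2 * s.re - 1) (by linarith)).mul_left D.B') (fun y => ?_)
  exact D.rho_norm y s (by linarith)

theorem rho_tsum_diff : DifferentiableOn ℂ (fun s => ∑' y : Y, D.rho y s)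
    {s : ℂ | (e : ℝ) + 5 / 6 < s.re} := by
  have hn' : (1 : ℝ) ≤ e := by exact_mod_cast D.he
  refine Complex.differentiableOn_tsum_of_summable_norm
    (u := fun y => D.B' * (qq pk y : ℝ) ^ (-(2 * ((e : ℝ) + 5 / 6) - 1)))
    ((summable_y D (2 * ((e : ℝ) + 5 / 6) - 1) (by linarith)).mul_left D.B') ?_
    (isOpen_lt continuous_const Complex.continuous_re) ?_
  · intro y s hs
    simp only [Set.mem_ofPred_eq] at hs
    exact (D.rho_diff y s (by linarith)).differentiableWithinAt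
  · intro y s hs
    simp only [Set.mem_ofPred_eq] at hs
    refine (D.rho_norm y s (by linarith)).trans ?_
    apply mul_le_mul_of_nonneg_left _ D.hB'
    apply Real.rpow_le_rpow_of_exponent_le (by exact_mod_cast qq_pos pk y)
    linarith

/-- the sum of the traces over the places of type `c` -/
noncomputable def Ac (c : Nat.Primes × ℕ) : ℝ :=
  letI := D.fin c
  ∑ y : {y // pk y = c}, D.ag y.1

/-- the trivial bound -/
theorem Ac_trivial (c : Nat.Primes × ℕ) : |Ac D c| ≤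
    D.B * D.C * (Qc c : ℝ) ^ ((e : ℝ) + 1 / 2) := by
  letI := D.fin c
  have hQ : (0 : ℝ) < Qc c := by exact_mod_cast Qc_pos c
  have hB := D.hB
  rw [Ac]
  refine (Finset.abs_sum_le_sum_abs _ _).trans ?_
  have h : ∀ y ∈ (Finset.univ : Finset {y // pk y = c}),
      |D.ag y.1| ≤ D.B * (Qc c : ℝ) ^ (1 / 2 : ℝ) := by
    intro y _
    have := D.hag y.1
    rwa [qq_eq, Real.sqrt_eq_rpow] at this
  refine (Finset.sum_le_sum h).trans ?_
  rw [Finset.sum_const, Finset.card_univ, nsmul_eq_mul, ← Nat.card_eq_fintype_card]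
  calc (Nat.card {y // pk y = c} : ℝ) * (D.B * (Qc c : ℝ) ^ (1 / 2 : ℝ)) ≤
      (D.C * (Qc c : ℝ) ^ (e : ℝ)) * (D.B * (Qc c : ℝ) ^ (1 / 2 : ℝ)) :=
        mul_le_mul_of_nonneg_right (D.hcard c) (by positivity)
    _ = D.B * D.C * (Qc c : ℝ) ^ ((e : ℝ) + 1 / 2) := by
        rw [Real.rpow_add hQ]
        ring

theorem hasSum_ay (s : ℂ) (hs : (e : ℝ) + 3 / 2 < s.re) :
    HasSum (fun y : Y => (D.ag y : ℂ) * (qq pk y : ℂ) ^ (-s))
      (∑' c : Nat.Primes × ℕ, (Ac D c : ℂ) * (Qc c : ℂ) ^ (-s)) := by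
  classical
  letI := D.fin
  have hsm : Summable (fun y : Y => (D.ag y : ℂ) * (qq pk y : ℂ) ^ (-s)) := by
    refine Summable.of_norm_bounded
      ((summable_y D (s.re - 1 / 2) (by linarith)).mul_left D.B) (fun y => ?_)
    exact term_norm D y s
  have h3 : ∑' y : Y, (D.ag y : ℂ) * (qq pk y : ℂ) ^ (-s) =
      ∑' c : Nat.Primes × ℕ, (Ac D c : ℂ) * (Qc c : ℂ) ^ (-s) := by
    rw [← (Equiv.sigmaFiberEquiv pk).tsum_eq, Summable.tsum_sigma]
    · apply tsum_congr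
      intro c
      have h4 : ∀ y : {y // pk y = c}, ((D.ag
          ((Equiv.sigmaFiberEquiv pk) ⟨c, y⟩) : ℝ) : ℂ) *
          (qq pk ((Equiv.sigmaFiberEquiv pk) ⟨c, y⟩) : ℂ) ^ (-s) =
          ((D.ag y.1 : ℝ) : ℂ) * (Qc c : ℂ) ^ (-s) := by
        intro y
        change ((D.ag y.1 : ℝ) : ℂ) * (qq pk y.1 : ℂ) ^ (-s) = _
        rw [qq_eq]
      rw [tsum_congr h4, tsum_fintype, ← Finset.sum_mul]
      congr 1
      rw [Ac]
      push_cast
      rfl
    · exact (Equiv.sigmaFiberEquiv pk).summable_iff.2 hsm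
  rw [← h3]
  exact hsm.hasSum

/-- the Euler product over the good places -/
theorem hasProd_good (s : ℂ) (hs : (e : ℝ) + 3 / 2 < s.re) :
    HasProd (fun y : {y : Y // D.G y} =>
      Complex.exp ((D.ag y.1 : ℂ) * (qq pk y.1 : ℂ) ^ (-s) + D.rho y.1 s))
      (Complex.exp (∑' y : Y, D.rho y s +
        ∑' c : Nat.Primes × ℕ, (Ac D c : ℂ) * (Qc c : ℂ) ^ (-s))) := by
  classical
  have hn' : (1 : ℝ) ≤ e := by exact_mod_cast D.he
  have h3 := ((rho_summable D s (by linarith)).hasSum.add (hasSum_ay D s hs)).cexp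
  have h5 : (Set.mulIndicator {y : Y | D.G y} fun y : Y =>
      Complex.exp ((D.ag y : ℂ) * (qq pk y : ℂ) ^ (-s) + D.rho y s)) =
      Complex.exp ∘ fun y : Y => D.rho y s + (D.ag y : ℂ) * (qq pk y : ℂ) ^ (-s) := by
    funext y
    by_cases h : D.G y
    · rw [Set.mulIndicator_of_mem (show y ∈ {y : Y | D.G y} from h), Function.comp, add_comm]
    · rw [Set.mulIndicator_of_notMem (show y ∉ {y : Y | D.G y} from h), Function.comp, D.h0 y h,
        D.h0' y s h]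
      simp
  rw [← h5] at h3
  exact hasProd_subtype_iff_mulIndicator.2 h3

variable (r : ℕ) (nn : Nat.Primes → ℝ)

/-- the sums of traces without their main term -/
noncomputable def Am (c : Nat.Primes × ℕ) : ℝ :=
  Ac D c + if c.2 = 0 then (r : ℝ) * nn c.1 * (Qc c : ℝ) ^ (e : ℝ) else 0

theorem sumAm (K : ℝ) (hK : 0 ≤ K)
    (b0 : ∀ p : Nat.Primes, |Ac D (p, 0) + r * nn p * ((p : ℕ) : ℝ) ^ (e : ℝ)| ≤
      K * ((p : ℕ) : ℝ) ^ ((e : ℝ) - 1 / 2))
    (b1 : ∀ p : Nat.Primes, |Ac D (p, 1)| ≤ K * ((p : ℕ) : ℝ) ^ (2 * (e : ℝ)))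
    (σ₁ : ℝ) (hσ : (e : ℝ) + 5 / 6 < σ₁) :
    Summable (fun c => |Am D r nn c| * (Qc c : ℝ) ^ (-σ₁)) := by
  have s0 := summ_ind K ((e : ℝ) - 1 / 2 - σ₁) hK (by linarith) 0
  have s1 := summ_ind K (2 * (e : ℝ) - 2 * σ₁) hK (by linarith) 1
  have s2 := (summable_Q (σ₁ - e - 1 / 2) (by linarith) 2
    (by push_cast; linarith)).mul_left (D.B * D.C)
  have hC := D.hC
  have hB := D.hB
  refine Summable.of_nonneg_of_le (fun c => mul_nonneg (abs_nonneg _)
    (Real.rpow_nonneg (Nat.cast_nonneg _) _)) (fun c => ?_) ((s0.add s1).add s2)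
  have hp0 : (0 : ℝ) < ((c.1 : ℕ) : ℝ) := by exact_mod_cast c.1.2.pos
  have hQ0 : (0 : ℝ) < Qc c := by exact_mod_cast Qc_pos c
  obtain ⟨p, k⟩ := c
  change |Am D r nn (p, k)| * (Qc (p, k) : ℝ) ^ (-σ₁) ≤
    (K * ((p : ℕ) : ℝ) ^ ((e : ℝ) - 1 / 2 - σ₁)) * (if k = 0 then (1 : ℝ) else 0) +
    (K * ((p : ℕ) : ℝ) ^ (2 * (e : ℝ) - 2 * σ₁)) * (if k = 1 then (1 : ℝ) else 0) +
    D.B * D.C * (if 2 ≤ k then (Qc (p, k) : ℝ) ^ (-(σ₁ - e - 1 / 2)) else 0)
  change (0 : ℝ) < ((p : ℕ) : ℝ) at hp0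
  rcases Nat.lt_or_ge k 2 with hk | hk
  · rcases Nat.lt_or_ge k 1 with hk' | hk'
    · have hk0 : k = 0 := by omega
      subst hk0
      have hQp : (Qc (p, 0) : ℝ) = ((p : ℕ) : ℝ) := by
        rw [Qc]
        simp
      have e1 : |Am D r nn (p, 0)| * (Qc (p, 0) : ℝ) ^ (-σ₁) ≤
          K * ((p : ℕ) : ℝ) ^ ((e : ℝ) - 1 / 2 - σ₁) := by
        have e2 : |Am D r nn (p, 0)| ≤ K * ((p : ℕ) : ℝ) ^ ((e : ℝ) - 1 / 2) := by
          have := b0 p
          rw [Am, if_pos rfl, hQp]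
          exact this
        calc |Am D r nn (p, 0)| * (Qc (p, 0) : ℝ) ^ (-σ₁) ≤
            (K * ((p : ℕ) : ℝ) ^ ((e : ℝ) - 1 / 2)) * (Qc (p, 0) : ℝ) ^ (-σ₁) :=
              mul_le_mul_of_nonneg_right e2 (by positivity)
          _ = K * ((p : ℕ) : ℝ) ^ ((e : ℝ) - 1 / 2 - σ₁) := by
              rw [hQp, mul_assoc, ← Real.rpow_add hp0]
              congr 2
      rw [if_pos rfl, if_neg (by norm_num), if_neg (by norm_num), mul_one, mul_zero, mul_zero,
        add_zero, add_zero]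
      exact e1
    · have hk1 : k = 1 := by omega
      subst hk1
      have e1 : |Am D r nn (p, 1)| * (Qc (p, 1) : ℝ) ^ (-σ₁) ≤
          K * ((p : ℕ) : ℝ) ^ (2 * (e : ℝ) - 2 * σ₁) := by
        have e2 : |Am D r nn (p, 1)| ≤ K * ((p : ℕ) : ℝ) ^ (2 * (e : ℝ)) := by
          have := b1 p
          rw [Am, if_neg (by norm_num), add_zero]
          exact this
        calc |Am D r nn (p, 1)| * (Qc (p, 1) : ℝ) ^ (-σ₁) ≤
            (K * ((p : ℕ) : ℝ) ^ (2 * (e : ℝ))) * (Qc (p, 1) : ℝ) ^ (-σ₁) :=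
              mul_le_mul_of_nonneg_right e2 (by positivity)
          _ = K * ((p : ℕ) : ℝ) ^ (2 * (e : ℝ) - 2 * σ₁) := by
              rw [Qc_rpow, mul_assoc, ← Real.rpow_add hp0]
              congr 2
              push_cast
              ring
      rw [if_neg (by norm_num), if_pos rfl, if_neg (by norm_num), mul_one, mul_zero, mul_zero,
        add_zero, zero_add]
      exact e1
  · have e1 : |Am D r nn (p, k)| * (Qc (p, k) : ℝ) ^ (-σ₁) ≤
        D.B * D.C * (Qc (p, k) : ℝ) ^ (-(σ₁ - e - 1 / 2)) := by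
      have e2 := Ac_trivial D (p, k)
      have e3 : Am D r nn (p, k) = Ac D (p, k) := by
        rw [Am, if_neg (by simp only; omega), add_zero]
      rw [e3]
      calc |Ac D (p, k)| * (Qc (p, k) : ℝ) ^ (-σ₁) ≤
          (D.B * D.C * (Qc (p, k) : ℝ) ^ ((e : ℝ) + 1 / 2)) *
            (Qc (p, k) : ℝ) ^ (-σ₁) := mul_le_mul_of_nonneg_right e2 (by positivity)
        _ = D.B * D.C * (Qc (p, k) : ℝ) ^ (-(σ₁ - e - 1 / 2)) := by
            rw [mul_assoc, ← Real.rpow_add hQ0]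
            congr 2
            ring
    have hk0 : k ≠ 0 := by omega
    have hk1 : k ≠ 1 := by omega
    rw [if_neg hk0, if_neg hk1, if_pos hk, mul_zero, mul_zero, zero_add, zero_add]
    exact e1

theorem Am_term_norm (c : Nat.Primes × ℕ) (s : ℂ) :
    ‖(Am D r nn c : ℂ) * (Qc c : ℂ) ^ (-s)‖ = |Am D r nn c| * (Qc c : ℝ) ^ (-s.re) := by
  rw [norm_mul, Complex.norm_natCast_cpow_of_pos (Qc_pos c), Complex.norm_real, Real.norm_eq_abs,
    Complex.neg_re]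

theorem Am_tsum_diff (σ₀ : ℝ) (hsum : ∀ σ₁, σ₀ < σ₁ →
    Summable (fun c => |Am D r nn c| * (Qc c : ℝ) ^ (-σ₁))) :
    DifferentiableOn ℂ (fun s => ∑' c : Nat.Primes × ℕ, (Am D r nn c : ℂ) * (Qc c : ℂ) ^ (-s))
      {s : ℂ | σ₀ < s.re} := by
  intro s hs
  simp only [Set.mem_ofPred_eq] at hs
  obtain ⟨σ₁, h1, h3⟩ := exists_between hs
  have hopen : IsOpen {s : ℂ | σ₁ < s.re} := isOpen_lt continuous_const Complex.continuous_re
  have hd : DifferentiableOn ℂ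
      (fun s => ∑' c : Nat.Primes × ℕ, (Am D r nn c : ℂ) * (Qc c : ℂ) ^ (-s))
      {s : ℂ | σ₁ < s.re} := by
    refine Complex.differentiableOn_tsum_of_summable_norm (hsum σ₁ h1) ?_ hopen ?_
    · intro c s _
      have hq : (Qc c : ℂ) ≠ 0 := by exact_mod_cast (Qc_pos c).ne'
      exact (((differentiableAt_id.neg).const_cpow (Or.inl hq)).const_mul _).differentiableWithinAt
    · intro c s hs
      simp only [Set.mem_ofPred_eq] at hs
      rw [Am_term_norm]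
      apply mul_le_mul_of_nonneg_left _ (abs_nonneg _)
      apply Real.rpow_le_rpow_of_exponent_le (by exact_mod_cast Qc_pos c)
      linarith
  exact (hd.differentiableAt (hopen.mem_nhds h3)).differentiableWithinAt

theorem Am_sum (N₀ : ℝ) (hnn : ∀ p, |nn p| ≤ N₀) (s : ℂ) (hs : (e : ℝ) + 3 / 2 < s.re)
    (hsum : Summable (fun c => |Am D r nn c| * (Qc c : ℝ) ^ (-s.re))) :
    ∑' c : Nat.Primes × ℕ, (Ac D c : ℂ) * (Qc c : ℂ) ^ (-s) =
      ∑' c : Nat.Primes × ℕ, (Am D r nn c : ℂ) * (Qc c : ℂ) ^ (-s) -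
        (r : ℂ) * ∑' p : Nat.Primes, (nn p : ℂ) * ((p : ℕ) : ℂ) ^ (-(s - e)) := by
  set f : Nat.Primes × ℕ → ℂ := fun c =>
    if c.2 = 0 then (r : ℂ) * ((nn c.1 : ℂ) * ((c.1 : ℕ) : ℂ) ^ (-(s - e))) else 0 with hf
  set g : Nat.Primes → Nat.Primes × ℕ := fun p => (p, 0) with hg
  have hginj : Function.Injective g := fun p q h => (Prod.mk.injEq ..).mp h |>.1
  have hsupp : Function.support f ⊆ Set.range g := by
    intro c hc
    rw [Function.mem_support, hf] at hc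
    obtain ⟨p, k⟩ := c
    by_cases hk : k = 0
    · subst hk; exact ⟨p, rfl⟩
    · exact absurd (if_neg hk) hc
  have hfg : ∀ p, f (g p) = (r : ℂ) * ((nn p : ℂ) * ((p : ℕ) : ℂ) ^ (-(s - e))) := by
    intro p
    rw [hf, hg]
    simp
  have hz : 1 < (s - e).re := by
    rw [Complex.sub_re, Complex.natCast_re]
    linarith
  have hs0 : Summable (fun p : Nat.Primes => (nn p : ℂ) * ((p : ℕ) : ℂ) ^ (-(s - e))) := by
    refine Summable.of_norm_bounded ((Pool.Agent.TH958.An.p_summable (s - e) hz).norm.mul_left N₀)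
      (fun p => ?_)
    rw [norm_mul, Complex.norm_real, Real.norm_eq_abs]
    exact mul_le_mul_of_nonneg_right (hnn p) (norm_nonneg _)
  have hs1 : Summable (fun p => f (g p)) := by
    simp_rw [hfg]
    exact hs0.mul_left _
  have hs2 : Summable f := (hginj.summable_iff (fun c hc => by
    by_contra h
    exact hc (hsupp h))).1 hs1
  have h1 : ∑' c, f c = (r : ℂ) * ∑' p : Nat.Primes, (nn p : ℂ) * ((p : ℕ) : ℂ) ^ (-(s - e)) := by
    rw [← hginj.tsum_eq hsupp, ← tsum_mul_left]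
    exact tsum_congr hfg
  have hs3 : Summable (fun c => (Am D r nn c : ℂ) * (Qc c : ℂ) ^ (-s)) := by
    refine Summable.of_norm_bounded hsum (fun c => ?_)
    rw [Am_term_norm]
  rw [← h1, ← hs3.tsum_sub hs2]
  apply tsum_congr
  intro c
  obtain ⟨p, k⟩ := c
  rw [Am, hf]
  by_cases hk : k = 0
  · subst hk
    have hp0 : ((p : ℕ) : ℂ) ≠ 0 := by exact_mod_cast p.2.pos.ne'
    have hQp : Qc (p, 0) = (p : ℕ) := by
      rw [Qc]
      simp
    simp only [if_true, hQp]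
    have h5 : ((p : ℕ) : ℂ) ^ (-(s - e)) = ((((p : ℕ) : ℝ) ^ (e : ℝ) : ℝ) : ℂ) *
        ((p : ℕ) : ℂ) ^ (-s) := by
      rw [show -(s - (e : ℂ)) = (e : ℂ) + -s by ring, Complex.cpow_add _ _ hp0]
      congr 1
      rw [Complex.ofReal_cpow (Nat.cast_nonneg _)]
      push_cast
      rfl
    rw [h5]
    push_cast
    ring
  · simp only [if_neg hk]
    push_cast
    ring

/-- The analytic core: the Euler product is a holomorphic function without zeros times the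
exponential of a sum over the primes. -/
theorem core (N₀ : ℝ) (hnn : ∀ p, |nn p| ≤ N₀) (K : ℝ) (hK : 0 ≤ K)
    (b0 : ∀ p : Nat.Primes, |Ac D (p, 0) + r * nn p * ((p : ℕ) : ℝ) ^ (e : ℝ)| ≤
      K * ((p : ℕ) : ℝ) ^ ((e : ℝ) - 1 / 2))
    (b1 : ∀ p : Nat.Primes, |Ac D (p, 1)| ≤ K * ((p : ℕ) : ℝ) ^ (2 * (e : ℝ))) :
    ∃ E : ℂ → ℂ, (∀ s : ℂ, (e : ℝ) + 5 / 6 < s.re → AnalyticAt ℂ E s ∧ E s ≠ 0) ∧
      ∀ s : ℂ, (e : ℝ) + 3 / 2 < s.re → HasProd (fun y : {y : Y // D.G y} =>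
        Complex.exp ((D.ag y.1 : ℂ) * (qq pk y.1 : ℂ) ^ (-s) + D.rho y.1 s))
        (E s * Complex.exp (-(r : ℂ) * ∑' p : Nat.Primes, (nn p : ℂ) *
          ((p : ℕ) : ℂ) ^ (-(s - e)))) := by
  have hsum := sumAm D r nn K hK b0 b1
  have hopen : IsOpen {s : ℂ | (e : ℝ) + 5 / 6 < s.re} :=
    isOpen_lt continuous_const Complex.continuous_re
  set E : ℂ → ℂ := fun s => Complex.exp (∑' y : Y, D.rho y s +
    ∑' c : Nat.Primes × ℕ, (Am D r nn c : ℂ) * (Qc c : ℂ) ^ (-s)) with hE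
  have hEd : DifferentiableOn ℂ E {s : ℂ | (e : ℝ) + 5 / 6 < s.re} :=
    ((rho_tsum_diff D).add (Am_tsum_diff D r nn _ hsum)).cexp
  refine ⟨E, fun s hs => ⟨hEd.analyticAt (hopen.mem_nhds hs), Complex.exp_ne_zero _⟩,
    fun s hs => ?_⟩
  have h1 := hasProd_good D s hs
  rw [Am_sum D r nn N₀ hnn s hs (hsum _ (by linarith))] at h1
  rw [hE]
  simp only
  rw [← Complex.exp_add]
  have h2 : ∑' y : Y, D.rho y s + ∑' c : Nat.Primes × ℕ, (Am D r nn c : ℂ) * (Qc c : ℂ) ^ (-s) +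
      -(r : ℂ) * ∑' p : Nat.Primes, (nn p : ℂ) * ((p : ℕ) : ℂ) ^ (-(s - e)) =
      ∑' y : Y, D.rho y s + (∑' c : Nat.Primes × ℕ, (Am D r nn c : ℂ) * (Qc c : ℂ) ^ (-s) -
        (r : ℂ) * ∑' p : Nat.Primes, (nn p : ℂ) * ((p : ℕ) : ℂ) ^ (-(s - e))) := by
    ring
  rw [h2]
  exact h1

end

end Q45.UH
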