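import Pool.Agent.Q45.UH.Alg
import Pool.Agent.H341R2.WeilSharp

/-!
# The polynomials with prescribed square values at marked points
-/

set_option autoImplicit false

open Polynomial Finset

namespace Q45.UH

section

variable {κ : Type} [Field κ] {r j : ℕ}

/-- The polynomial of degree less than `r` with the values `y_i ^ 2 - b(x_i)` at the points `x_i`
(if they are different). -/
noncomputable def inter (b : κ[X]) (x y : Fin r → κ) : κ[X] :=
  Lagrange.interpolate univ x (fun i => y i ^ 2 - b.eval (x i))

/-- `h_0 + h_1 X + ... + h_j X ^ j` -/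
noncomputable def hpol (h : Fin (j + 1) → κ) : κ[X] := ∑ l, C (h l) * X ^ (l : ℕ)

/-- The polynomial `f = b + (lower terms)` with `f(x_i) = y_i ^ 2` and with the other parameters
`h`. -/
noncomputable def fval (b : κ[X]) (x y : Fin r → κ) (h : Fin (j + 1) → κ) : κ[X] :=
  b + inter b x y + (∏ i, (X - C (x i))) * hpol h

/-- the part without `h_0` -/
noncomputable def f1 (b : κ[X]) (x y : Fin r → κ) (h' : Fin j → κ) : κ[X] :=
  b + inter b x y + pi x * ∑ l, C (h' l) * X ^ ((l : ℕ) + 1)

theorem fval_cons (b : κ[X]) (x y : Fin r → κ) (h₀ : κ) (h' : Fin j → κ) :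
    fval b x y (Fin.cons h₀ h' : Fin (j + 1) → κ) = f1 b x y h' + C h₀ * pi x := by
  unfold fval f1 hpol
  rw [Fin.sum_univ_succ]
  simp only [Fin.cons_zero, Fin.cons_succ, Fin.val_zero, Fin.val_succ, pow_zero, mul_one]
  unfold pi
  ring

theorem inter_eval {b : κ[X]} {x y : Fin r → κ} (hx : Function.Injective x) (i : Fin r) :
    (inter b x y).eval (x i) = y i ^ 2 - b.eval (x i) := by
  unfold inter
  rw [Lagrange.eval_interpolate_at_node _ hx.injOn (mem_univ i)]

theorem inter_degree {b : κ[X]} {x y : Fin r → κ} (hx : Function.Injective x) :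
    (inter b x y).degree < r := by
  have h := Lagrange.degree_interpolate_lt (fun i => y i ^ 2 - b.eval (x i)) (s := univ) hx.injOn
  rw [card_univ, Fintype.card_fin] at h
  exact h

theorem pi_eval_node (x : Fin r → κ) (i : Fin r) : (pi x).eval (x i) = 0 := by
  rw [pi, eval_prod, prod_eq_zero (mem_univ i)]
  rw [eval_sub, eval_X, eval_C, sub_self]

theorem pi_eval_ne {x : Fin r → κ} {z : κ} (h : ∀ i, x i ≠ z) : (pi x).eval z ≠ 0 := by
  rw [pi, eval_prod, prod_ne_zero_iff]
  intro i _
  rw [eval_sub, eval_X, eval_C]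
  exact sub_ne_zero.2 (h i).symm

theorem f1_eval {b : κ[X]} {x y : Fin r → κ} (hx : Function.Injective x) (h' : Fin j → κ)
    (i : Fin r) : (f1 b x y h').eval (x i) = y i ^ 2 := by
  unfold f1
  rw [eval_add, eval_add, eval_mul, pi_eval_node, inter_eval hx]
  ring

theorem f1_low {b : κ[X]} {x y : Fin r → κ} (hx : Function.Injective x) (h' : Fin j → κ)
    (hd : r + j < b.natDegree) :
    (inter b x y + pi x * ∑ l, C (h' l) * X ^ ((l : ℕ) + 1)).degree < b.natDegree := by
  refine (degree_add_le _ _).trans_lt (max_lt ?_ ?_)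
  · refine (inter_degree hx).trans ?_
    exact_mod_cast (by omega : r < b.natDegree)
  · by_cases h0 : (∑ l, C (h' l) * X ^ ((l : ℕ) + 1) : κ[X]) = 0
    · rw [h0, mul_zero, degree_zero]
      exact WithBot.bot_lt_coe _
    · refine degree_le_natDegree.trans_lt ?_
      have h1 : (∑ l : Fin j, C (h' l) * X ^ ((l : ℕ) + 1) : κ[X]).natDegree ≤ j := by
        refine natDegree_sum_le_of_forall_le _ _ fun l _ => ?_
        refine (natDegree_C_mul_X_pow_le _ _).trans ?_
        exact l.2
      have h2 : (pi x * ∑ l : Fin j, C (h' l) * X ^ ((l : ℕ) + 1) : κ[X]).natDegree ≤ r + j :=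
        natDegree_mul_le.trans (by rw [pi_natDegree]; omega)
      exact_mod_cast (by omega : (pi x * ∑ l : Fin j, C (h' l) * X ^ ((l : ℕ) + 1)).natDegree <
        b.natDegree)

theorem f1_monic {b : κ[X]} (hb : b.Monic) {x y : Fin r → κ} (hx : Function.Injective x)
    (h' : Fin j → κ) (hd : r + j < b.natDegree) : (f1 b x y h').Monic := by
  unfold f1
  rw [add_assoc]
  refine hb.add_of_left ?_
  rw [degree_eq_natDegree hb.ne_zero]
  exact f1_low hx h' hd

theorem f1_natDegree {b : κ[X]} (hb : b.Monic) {x y : Fin r → κ} (hx : Function.Injective x)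
    (h' : Fin j → κ) (hd : r + j < b.natDegree) : (f1 b x y h').natDegree = b.natDegree := by
  unfold f1
  rw [add_assoc]
  apply natDegree_eq_of_degree_eq
  apply degree_add_eq_left_of_degree_lt
  rw [degree_eq_natDegree hb.ne_zero]
  exact f1_low hx h' hd

theorem lin_monic {f : κ[X]} (hf : f.Monic) {x : Fin r → κ} (hd : r < f.natDegree) (c : κ) :
    (f + C c * pi x).Monic ∧ (f + C c * pi x).natDegree = f.natDegree := by
  have h1 : (C c * pi x).degree < f.degree := by
    rw [degree_eq_natDegree hf.ne_zero]
    by_cases h0 : C c * pi x = 0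
    · rw [h0, degree_zero]
      exact WithBot.bot_lt_coe _
    · refine degree_le_natDegree.trans_lt ?_
      have : (C c * pi x).natDegree ≤ r := (natDegree_C_mul_le _ _).trans (pi_natDegree x).le
      exact_mod_cast this.trans_lt hd
  exact ⟨hf.add_of_left h1, natDegree_eq_of_degree_eq (degree_add_eq_left_of_degree_lt h1)⟩

theorem fval_monic {b : κ[X]} (hb : b.Monic) {x y : Fin r → κ} (hx : Function.Injective x)
    (h : Fin (j + 1) → κ) (hd : r + j < b.natDegree) :
    (fval b x y h).Monic ∧ (fval b x y h).natDegree = b.natDegree := by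
  have h1 := fval_cons b x y (h 0) (Fin.tail h)
  rw [Fin.cons_self_tail] at h1
  have h2 := f1_monic hb (y := y) hx (Fin.tail h) hd
  have h3 := f1_natDegree hb (y := y) hx (Fin.tail h) hd
  have h4 := lin_monic (x := x) h2 (by rw [h3]; omega) (h 0)
  rw [h1]
  exact ⟨h4.1, h4.2.trans h3⟩

theorem fval_eval {b : κ[X]} {x y : Fin r → κ} (hx : Function.Injective x)
    (h : Fin (j + 1) → κ) (i : Fin r) : (fval b x y h).eval (x i) = y i ^ 2 := by
  have h1 := fval_cons b x y (h 0) (Fin.tail h)
  rw [Fin.cons_self_tail] at h1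
  rw [h1, eval_add, eval_mul, pi_eval_node, mul_zero, add_zero, f1_eval hx]

/-- The Wronskian of `f_1` and `π`. -/
noncomputable def wr (f p : κ[X]) : κ[X] := f * derivative p - derivative f * p

theorem wr_natDegree_le (f p : κ[X]) : (wr f p).natDegree ≤ f.natDegree + p.natDegree := by
  unfold wr
  refine (natDegree_sub_le _ _).trans (max_le ?_ ?_)
  · exact natDegree_mul_le.trans (Nat.add_le_add_left (natDegree_derivative_le p |>.trans
      (Nat.sub_le _ _)) _)
  · exact natDegree_mul_le.trans (Nat.add_le_add_right (natDegree_derivative_le f |>.trans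
      (Nat.sub_le _ _)) _)

theorem pi_deriv_eval {x : Fin r → κ} (hx : Function.Injective x) (i : Fin r) :
    (derivative (pi x)).eval (x i) ≠ 0 := by
  have h1 : pi x = (X - C (x i)) * ∏ k ∈ univ.erase i, (X - C (x k)) :=
    (mul_prod_erase _ _ (mem_univ i)).symm
  rw [h1, derivative_mul, eval_add, eval_mul, eval_mul, eval_sub, eval_X, eval_C, sub_self, zero_mul,
    add_zero, derivative_sub, derivative_X, derivative_C, sub_zero, eval_one, one_mul, eval_prod,
    prod_ne_zero_iff]
  intro k hk
  rw [eval_sub, eval_X, eval_C]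
  exact sub_ne_zero.2 fun h => (mem_erase.1 hk).1 (hx h.symm)

theorem wr_ne_pos {b : κ[X]} {x y : Fin r → κ} (hx : Function.Injective x) (h' : Fin j → κ)
    (i : Fin r) (hy : y i ≠ 0) : wr (f1 b x y h') (pi x) ≠ 0 := by
  intro h0
  have h1 := congrArg (eval (x i)) h0
  rw [wr, eval_sub, eval_mul, eval_mul, pi_eval_node, mul_zero, sub_zero, f1_eval hx, eval_zero] at h1
  exact mul_ne_zero (pow_ne_zero 2 hy) (pi_deriv_eval hx i) h1

open Classical in
/-- for all but few values of `h_0` the polynomial is squarefree -/
theorem card_nsq [Fintype κ] {f : κ[X]} {x : Fin r → κ} (hf0 : ∀ i, f.eval (x i) ≠ 0)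
    (hW : wr f (pi x) ≠ 0) :
    (univ.filter fun c : κ => ¬ Squarefree (f + C c * pi x)).card ≤ f.natDegree + r := by
  have hex : ∀ c : κ, ¬ Squarefree (f + C c * pi x) → ∃ P : κ[X],
      P ∈ UniqueFactorizationMonoid.normalizedFactors (wr f (pi x)) ∧ P ∣ f + C c * pi x := by
    intro c hc
    rw [squarefree_iff_irreducible_sq_not_dvd_of_ne_zero] at hc
    · push Not at hc
      obtain ⟨P, hP, hPd⟩ := hc
      have h1 : P ∣ f + C c * pi x := (Dvd.intro _ rfl).trans hPd
      have h2 : P ∣ derivative (f + C c * pi x) := by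
        obtain ⟨Q, hQ⟩ := hPd
        rw [hQ, derivative_mul, derivative_mul]
        exact ⟨2 * derivative P * Q + P * derivative Q, by ring⟩
      have h3 : P ∣ wr f (pi x) := by
        have e : wr f (pi x) = (f + C c * pi x) * derivative (pi x) -
            derivative (f + C c * pi x) * pi x := by
          rw [wr, derivative_add, derivative_mul, derivative_C]
          ring
        rw [e]
        exact dvd_sub (h1.mul_right _) (h2.mul_right _)
      refine ⟨normalize P, ?_, (normalize_dvd_iff).2 h1⟩
      exact (UniqueFactorizationMonoid.mem_normalizedFactors_iff' hW).2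
        ⟨(normalize_associated P).symm.irreducible hP, normalize_idem P, normalize_dvd_iff.2 h3⟩
    · intro h0
      apply hW
      have e : wr f (pi x) = (f + C c * pi x) * derivative (pi x) -
          derivative (f + C c * pi x) * pi x := by
        rw [wr, derivative_add, derivative_mul, derivative_C]
        ring
      rw [e, h0]
      simp
  choose! P hP1 hP2 using hex
  have hinj : Set.InjOn P (univ.filter fun c : κ => ¬ Squarefree (f + C c * pi x)) := by
    intro c hc d hd hcd
    rw [coe_filter, Set.mem_ofPred_eq] at hc hd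
    by_contra hne
    have h1 := hP2 c hc.2
    have h2 := hP2 d hd.2
    rw [← hcd] at h2
    have h3 : P c ∣ C (c - d) * pi x := by
      have e : C (c - d) * pi x = (f + C c * pi x) - (f + C d * pi x) := by
        rw [C_sub]
        ring
      rw [e]
      exact dvd_sub h1 h2
    have hirr : Irreducible (P c) := UniqueFactorizationMonoid.irreducible_of_normalized_factor _
      (hP1 c hc.2)
    have h4 : P c ∣ pi x := by
      have hu : IsUnit (C (c - d) : κ[X]) := isUnit_C.2 (sub_ne_zero.2 hne).isUnit
      exact (hu.dvd_mul_left).1 h3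
    have h5 : P c ∣ f := by
      have e : f = (f + C c * pi x) - C c * pi x := by ring
      rw [e]
      exact dvd_sub h1 (h4.mul_left _)
    unfold pi at h4
    obtain ⟨i, -, hi⟩ := (hirr.prime.dvd_finsetProd_iff _).1 h4
    have h6 : X - C (x i) ∣ P c :=
      hirr.dvd_symm (irreducible_X_sub_C (x i)) hi
    have h7 := h6.trans h5
    rw [dvd_iff_isRoot] at h7
    exact hf0 i h7
  have hcard := card_le_card_of_injOn P (t := (UniqueFactorizationMonoid.normalizedFactors
    (wr f (pi x))).toFinset) (fun c hc => by
      rw [coe_filter, Set.mem_ofPred_eq] at hc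
      rw [mem_coe, Multiset.mem_toFinset]
      exact hP1 c hc.2) hinj
  refine hcard.trans ((Multiset.toFinset_card_le _).trans ?_)
  refine le_trans ?_ ((wr_natDegree_le f (pi x)).trans (by rw [pi_natDegree]))
  -- the number of the irreducible factors
  have h1 : ∀ s : Multiset κ[X], (∀ p ∈ s, Irreducible p) → Multiset.card s ≤ s.prod.natDegree := by
    intro s
    induction s using Multiset.induction_on with
    | empty => intro _; simp
    | cons a s ih =>
      intro hs
      have ha := hs a (Multiset.mem_cons_self _ _)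
      have hs' : ∀ p ∈ s, Irreducible p := fun p hp => hs p (Multiset.mem_cons_of_mem hp)
      have h0 : s.prod ≠ 0 := Multiset.prod_ne_zero fun h => (hs' 0 h).ne_zero rfl
      rw [Multiset.card_cons, Multiset.prod_cons, natDegree_mul ha.ne_zero h0]
      have := ih hs'
      have := ha.natDegree_pos
      omega
  have h2 := h1 (UniqueFactorizationMonoid.normalizedFactors (wr f (pi x)))
    (fun p hp => UniqueFactorizationMonoid.irreducible_of_normalized_factor _ hp)
  refine h2.trans (le_of_eq ?_)
  exact natDegree_eq_of_degree_eq (degree_eq_degree_of_associated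
    (UniqueFactorizationMonoid.prod_normalizedFactors hW))

end

end Q45.UH
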