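import Pool.Agent.Q45.UH.Alg

/-!
# The class group of the generic hyperelliptic curve with marked points: generators
-/

set_option autoImplicit false

open Polynomial Pool.Agent.TH943.HJ

namespace Q45.UH

section abs

variable {A B : Type} [CommRing A] [IsDedekindDomain A] [CommRing B] [IsDomain B]
  [UniqueFactorizationMonoid B]

/-- Every prime ideal which does not contain `Π` is principal up to ideals which divide powers of `Π`. -/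
theorem gen_abs (ψ : B →+* A) (hψ : Function.Injective ψ) (p : B) (S : Set A)
    (hSu : ∀ c ∈ S, IsUnit c) (hS : ∀ c ∈ S, ∃ (e : ℕ) (P : B), ψ P = ψ p ^ e * c)
    (hSm : ∀ c ∈ S, ∀ d ∈ S, c * d ∈ S)
    (hA : ∀ a : A, ∃ c ∈ S, ∃ (e : ℕ) (P : B), ψ P = c * ψ p ^ e * a)
    (𝔭 : Ideal A) [h𝔭 : 𝔭.IsPrime] (h0 : 𝔭 ≠ ⊥) (hp : ψ p ∉ 𝔭) :
    ∃ (g : A) (J : Ideal A) (E : ℕ), g ≠ 0 ∧ Ideal.span {g} = 𝔭 * J ∧ Ideal.span {ψ p ^ E} ≤ J := by
  have hp0 : ψ p ≠ 0 := fun h => hp (h ▸ 𝔭.zero_mem)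
  -- an irreducible element of `B` in the prime ideal
  obtain ⟨Q, hQ, hQ𝔭⟩ : ∃ Q : B, Prime Q ∧ ψ Q ∈ 𝔭 := by
    obtain ⟨a, ha, ha0⟩ := Submodule.exists_mem_ne_zero_of_ne_bot h0
    obtain ⟨c, hc, e, P, hP⟩ := hA a
    have hP0 : P ≠ 0 := by
      rintro rfl
      rw [map_zero] at hP
      exact mul_ne_zero (mul_ne_zero (hSu c hc).ne_zero (pow_ne_zero _ hp0)) ha0 hP.symm
    have hP𝔭 : ψ P ∈ 𝔭 := by
      rw [hP]
      exact 𝔭.mul_mem_left _ ha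
    clear hP hc ha ha0
    induction P using UniqueFactorizationMonoid.induction_on_prime with
    | h₁ => exact absurd rfl hP0
    | h₂ u hu =>
      exact absurd (Ideal.eq_top_of_isUnit_mem _ hP𝔭 (hu.map ψ)) h𝔭.ne_top
    | h₃ b q hb hq ih =>
      rw [map_mul] at hP𝔭
      rcases h𝔭.mem_or_mem hP𝔭 with h | h
      · exact ⟨q, hq, h⟩
      · exact ih hb h
  have hQ0 : ψ Q ≠ 0 := fun h => hQ.ne_zero (hψ (by rw [h, map_zero]))
  obtain ⟨J, hJ⟩ : ∃ J, Ideal.span {ψ Q} = 𝔭 * J :=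
    Ideal.dvd_iff_le.2 (by rwa [Ideal.span_singleton_le_iff_mem])
  have hJ0 : J ≠ ⊥ := by
    rintro rfl
    rw [Ideal.mul_bot, Ideal.span_singleton_eq_bot] at hJ
    exact hQ0 hJ
  have hndp : ∀ (P : B) (e : ℕ) (c : A), IsUnit c → ψ P = ψ p ^ e * c → ¬ Q ∣ P := by
    rintro P e c hc hP ⟨R, rfl⟩
    have h1 : ψ p ^ e * c ∈ 𝔭 := by
      rw [← hP, map_mul]
      exact 𝔭.mul_mem_right _ hQ𝔭
    rcases h𝔭.mem_or_mem h1 with h | h
    · exact hp (h𝔭.mem_of_pow_mem _ h)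
    · exact h𝔭.ne_top (Ideal.eq_top_of_isUnit_mem _ h hc)
  -- the main step
  have key : ∀ a ∈ 𝔭, ∀ b ∈ J, (∃ e, ψ p ^ e * a ∈ Ideal.span {ψ Q}) ∨
      ∃ e, ψ p ^ e * b ∈ Ideal.span {ψ Q} := by
    intro a ha b hb
    have hab : a * b ∈ Ideal.span {ψ Q} := by
      rw [hJ]
      exact Ideal.mul_mem_mul ha hb
    obtain ⟨z, hz⟩ := Ideal.mem_span_singleton'.1 hab
    obtain ⟨ca, hca, ea, Pa, hPa⟩ := hA a
    obtain ⟨cb, hcb, eb, Pb, hPb⟩ := hA b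
    obtain ⟨cz, hcz, ez, Pz, hPz⟩ := hA z
    obtain ⟨e₁, P₁, hP₁⟩ := hS (ca * cb) (hSm _ hca _ hcb)
    obtain ⟨e₂, P₂, hP₂⟩ := hS cz hcz
    have h1 : Pa * Pb * (p ^ (ez + e₁) * P₂) = Q * (p ^ (ea + eb + e₂) * P₁ * Pz) := by
      apply hψ
      simp only [map_mul, map_pow, hPa, hPb, hP₂, hP₁, hPz]
      linear_combination (-(ca * cb * cz * ψ p ^ (ea + eb + ez + e₁ + e₂))) * hz
    have h2 : Q ∣ Pa * Pb * (p ^ (ez + e₁) * P₂) := ⟨_, h1⟩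
    have hfin : ∀ (c a : A) (e : ℕ) (P : B), c ∈ S → ψ P = c * ψ p ^ e * a → Q ∣ P →
        ψ p ^ e * a ∈ Ideal.span {ψ Q} := by
      rintro c a e P hc hP ⟨R, rfl⟩
      obtain ⟨c', hc'⟩ := (hSu c hc).exists_left_inv
      rw [Ideal.mem_span_singleton']
      refine ⟨c' * ψ R, ?_⟩
      rw [map_mul] at hP
      linear_combination c' * hP + ψ p ^ e * a * hc'
    rcases hQ.dvd_or_dvd h2 with h | h
    · rcases hQ.dvd_or_dvd h with h | h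
      · exact Or.inl ⟨ea, hfin ca a ea Pa hca hPa h⟩
      · exact Or.inr ⟨eb, hfin cb b eb Pb hcb hPb h⟩
    · exfalso
      rcases hQ.dvd_or_dvd h with h | h
      · exact hndp (p ^ (ez + e₁)) (ez + e₁) 1 isUnit_one (by rw [map_pow, mul_one]) h
      · exact hndp P₂ e₂ cz (hSu _ hcz) hP₂ h
  -- uniform exponents for ideals
  have unif : ∀ I : Ideal A, (∀ a ∈ I, ∃ e, ψ p ^ e * a ∈ Ideal.span {ψ Q}) →
      ∃ E, Ideal.span {ψ p ^ E} * I ≤ Ideal.span {ψ Q} := by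
    intro I hI
    obtain ⟨s, hs⟩ := (IsNoetherian.noetherian I : I.FG)
    choose! e he using hI
    refine ⟨s.sum e, ?_⟩
    rw [← hs, Ideal.span_mul_span', Ideal.span_le]
    rintro z ⟨u, hu, v, hv, rfl⟩
    rw [Set.mem_singleton_iff] at hu
    subst hu
    have hvI : v ∈ I := by
      rw [← hs]
      exact Ideal.subset_span hv
    have h1 : e v ≤ s.sum e := Finset.single_le_sum (fun _ _ => Nat.zero_le _) hv
    obtain ⟨d, hd⟩ := Nat.exists_eq_add_of_le h1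
    show ψ p ^ s.sum e * v ∈ Ideal.span {ψ Q}
    rw [hd, pow_add, mul_right_comm]
    exact Ideal.mul_mem_right _ _ (he v hvI)
  have hcase : (∀ a ∈ 𝔭, ∃ e, ψ p ^ e * a ∈ Ideal.span {ψ Q}) ∨
      ∀ b ∈ J, ∃ e, ψ p ^ e * b ∈ Ideal.span {ψ Q} := by
    by_contra hno
    push Not at hno
    obtain ⟨⟨a, ha, ha'⟩, b, hb, hb'⟩ := hno
    rcases key a ha b hb with ⟨e, h⟩ | ⟨e, h⟩
    · exact ha' e h
    · exact hb' e h
  rcases hcase with h | h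
  · obtain ⟨E, hE⟩ := unif 𝔭 h
    refine ⟨ψ Q, J, E, hQ0, hJ, ?_⟩
    rw [hJ, mul_comm 𝔭 J] at hE
    rw [← Ideal.dvd_iff_le] at hE ⊢
    exact (mul_dvd_mul_iff_right h0).1 hE
  · exfalso
    obtain ⟨E, hE⟩ := unif J h
    rw [hJ] at hE
    have h1 : Ideal.span {ψ p ^ E} ≤ 𝔭 := by
      rw [← Ideal.dvd_iff_le] at hE ⊢
      exact (mul_dvd_mul_iff_right hJ0).1 hE
    rw [Ideal.span_singleton_le_iff_mem] at h1
    exact hp (h𝔭.mem_of_pow_mem _ h1)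

end abs

end Q45.UH
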