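import Pool.Agent.Q45.UH.Gen

/-!
# The class group of the generic hyperelliptic curve with marked points: the map from `L[x, y]`
-/

set_option autoImplicit false

open Polynomial Pool.Agent.TH943.HJ

namespace Q45.UH

section

variable {L K : Type} [Field L] [Field K] [Algebra L[X] K] (f p : L[X])

/-- the map from `L[x][y]` to the coordinate ring of the generic curve -/
noncomputable def psi (K : Type) [Field K] [Algebra L[X] K] (f p : L[X]) :
    L[X][X] →+* CR (gF K f p) :=
  eval₂RingHom ((pp : K[X] →+* CR (gF K f p)).comp (mapRingHom (lk L K))) (yy (gF K f p))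

theorem psi_C (w : L[X]) : psi K f p (C w) = pp (w.map (lk L K)) := by
  rw [psi, coe_eval₂RingHom, eval₂_C]
  rfl

theorem psi_X : psi K f p X = yy (gF K f p) := by
  rw [psi, coe_eval₂RingHom, eval₂_X]

/-- the constants from `L[h]` as functions on the curve -/
noncomputable def io (K : Type) [Field K] [Algebra L[X] K] (f p : L[X]) : L[X] →+* CR (gF K f p) :=
  (pp : K[X] →+* CR (gF K f p)).comp (C.comp (algebraMap L[X] K))

theorem io_C (c : L) : io K f p (C c) = psi K f p (C (C c)) := by
  rw [psi_C, map_C]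
  rfl

theorem rel_X : psi K f p (C p) * io K f p X = psi K f p (X ^ 2 - C f) := by
  rw [map_sub, map_pow, psi_C, psi_C, psi_X, yy_sq]
  have h : io K f p X = pp (C (hh L K)) := rfl
  have h' : (pp (gF K f p) : CR (gF K f p)) =
      pp (f.map (lk L K)) + pp (C (hh L K)) * pp (p.map (lk L K)) := by
    rw [← map_mul, ← map_add]
    rfl
  rw [h, h']
  ring

/-- elements which come from `L[x][y]` up to powers of `p` -/
def Qz (K : Type) [Field K] [Algebra L[X] K] (f p : L[X]) (z : CR (gF K f p)) : Prop :=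
  ∃ (e : ℕ) (P : L[X][X]), psi K f p P = psi K f p (C p) ^ e * z

variable {f p}

theorem Qz.add {z w : CR (gF K f p)} (hz : Qz K f p z) (hw : Qz K f p w) : Qz K f p (z + w) := by
  obtain ⟨e, P, hP⟩ := hz
  obtain ⟨e', P', hP'⟩ := hw
  refine ⟨e + e', C p ^ e' * P + C p ^ e * P', ?_⟩
  rw [map_add, map_mul, map_mul, map_pow, map_pow, hP, hP']
  ring

theorem Qz.mul {z w : CR (gF K f p)} (hz : Qz K f p z) (hw : Qz K f p w) : Qz K f p (z * w) := by
  obtain ⟨e, P, hP⟩ := hz
  obtain ⟨e', P', hP'⟩ := hw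
  refine ⟨e + e', P * P', ?_⟩
  rw [map_mul, hP, hP']
  ring

theorem Qz.psi (P : L[X][X]) : Qz K f p (psi K f p P) := ⟨0, P, by rw [pow_zero, one_mul]⟩

theorem Qz.pow {z : CR (gF K f p)} (hz : Qz K f p z) (n : ℕ) : Qz K f p (z ^ n) := by
  induction n with
  | zero =>
    rw [pow_zero, ← map_one (Q45.UH.psi K f p)]
    exact Qz.psi 1
  | succ n ih =>
    rw [pow_succ]
    exact ih.mul hz

theorem Qz.io (c : L[X]) : Qz K f p (io K f p c) := by
  induction c using Polynomial.induction_on' with
  | add a b ha hb =>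
    rw [map_add]
    exact ha.add hb
  | monomial n a =>
    rw [← C_mul_X_pow_eq_monomial, map_mul, map_pow, io_C]
    exact (Qz.psi _).mul (Qz.pow ⟨1, _, by rw [pow_one, rel_X]⟩ n)

theorem Qz.poly (W : L[X][X]) : Qz K f p (pp (W.map (algebraMap L[X] K))) := by
  induction W using Polynomial.induction_on' with
  | add a b ha hb =>
    rw [Polynomial.map_add, map_add]
    exact ha.add hb
  | monomial n a =>
    rw [← C_mul_X_pow_eq_monomial, Polynomial.map_mul, Polynomial.map_pow, map_C, map_X, map_mul,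
      map_pow]
    refine Qz.mul (Qz.io a) (Qz.pow ⟨0, C X, ?_⟩ n)
    rw [psi_C, map_X, pow_zero, one_mul]

theorem io_isUnit [IsFractionRing L[X] K] {c : L[X]} (hc : c ≠ 0) : IsUnit (io K f p c) := by
  have h1 : algebraMap L[X] K c ≠ 0 := fun h0 => hc (by
    apply IsFractionRing.injective L[X] K
    rw [h0, map_zero])
  exact ((isUnit_C.2 h1.isUnit).map pp)

theorem Qz.all [IsFractionRing L[X] K] (a : CR (gF K f p)) :
    ∃ c : L[X], c ≠ 0 ∧ ∃ (e : ℕ) (P : L[X][X]),
      Q45.UH.psi K f p P = Q45.UH.io K f p c * Q45.UH.psi K f p (C p) ^ e * a := by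
  obtain ⟨u, v, rfl⟩ := exists_el a
  obtain ⟨d₁, W₀, hd₁, hW⟩ := exists_num (L := L) u
  obtain ⟨d₂, V₀, hd₂, hV⟩ := exists_num (L := L) v
  have h1 : Qz K f p (Q45.UH.io K f p d₂ * pp (W₀.map (algebraMap L[X] K)) +
      Q45.UH.io K f p d₁ * pp (V₀.map (algebraMap L[X] K)) * yy (gF K f p)) := by
    refine ((Qz.io d₂).mul (Qz.poly W₀)).add (((Qz.io d₁).mul (Qz.poly V₀)).mul ?_)
    rw [← psi_X]
    exact Qz.psi _
  obtain ⟨e, P, hP⟩ := h1
  refine ⟨d₁ * d₂, mul_ne_zero hd₁ hd₂, e, P, ?_⟩
  rw [hP, hW, hV]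
  have h2 : ∀ d : L[X], (pp (C (algebraMap L[X] K d)) : CR (gF K f p)) = Q45.UH.io K f p d :=
    fun d => rfl
  rw [map_mul, map_mul, map_mul, h2, h2, el]
  ring

/-! ### injectivity -/

/-- the field `L(x, y)` -/
abbrev MM (L : Type) [Field L] : Type := FractionRing L[X][X]

/-- the value of `h` -/
noncomputable def tt (f p : L[X]) : MM L :=
  algebraMap L[X][X] (MM L) (X ^ 2 - C f) / algebraMap L[X][X] (MM L) (C p)

theorem tt_trans (hp : p ≠ 0) : Transcendental L (tt f p) := by
  intro h
  have hCp : algebraMap L[X][X] (MM L) (C p) ≠ 0 := by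
    intro h0
    have := (IsFractionRing.injective L[X][X] (MM L)) (h0.trans (map_zero _).symm)
    exact hp (C_eq_zero.1 this)
  have h1 : IsAlgebraic L[X] (tt f p) := h.extendScalars C_injective
  have h2 : IsAlgebraic L[X] ((algebraMap L[X][X] (MM L) X) ^ 2) := by
    have e : (algebraMap L[X][X] (MM L) X) ^ 2 =
        algebraMap L[X] (MM L) f + tt f p * algebraMap L[X] (MM L) p := by
      have e1 : algebraMap L[X] (MM L) p = algebraMap L[X][X] (MM L) (C p) := rfl
      have e2 : algebraMap L[X] (MM L) f = algebraMap L[X][X] (MM L) (C f) := rfl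
      rw [e1, e2, tt, div_mul_cancel₀ _ hCp, map_sub, map_pow]
      ring
    rw [e]
    exact (isAlgebraic_algebraMap f).add (h1.mul (isAlgebraic_algebraMap p))
  have h3 : IsAlgebraic L[X] (algebraMap L[X][X] (MM L) X) := h2.of_pow two_pos
  have h4 : IsAlgebraic L[X] (X : L[X][X]) :=
    (isAlgebraic_algebraMap_iff (IsFractionRing.injective L[X][X] (MM L))).1 h3
  exact Polynomial.transcendental_X L[X] h4

theorem psi_inj [IsFractionRing L[X] K] (hp : p ≠ 0) : Function.Injective (psi K f p) := by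
  have hg : Function.Injective ((aeval (tt f p) : L[X] →ₐ[L] MM L) : L[X] →+* MM L) :=
    transcendental_iff_injective.1 (tt_trans hp)
  let kM : K →+* MM L := IsFractionRing.lift hg
  have hkM : ∀ a : L[X], kM (algebraMap L[X] K a) = aeval (tt f p) a := fun a =>
    IsFractionRing.lift_algebraMap hg a
  let xM : MM L := algebraMap L[X][X] (MM L) (C X)
  let yM : MM L := algebraMap L[X][X] (MM L) X
  have hCp : algebraMap L[X][X] (MM L) (C p) ≠ 0 := by
    intro h0
    have := (IsFractionRing.injective L[X][X] (MM L)) (h0.trans (map_zero _).symm)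
    exact hp (C_eq_zero.1 this)
  have hw : ∀ w : L[X], eval₂ kM xM (w.map (lk L K)) = algebraMap L[X][X] (MM L) (C w) := by
    intro w
    rw [eval₂_map]
    have e1 : (kM.comp (lk L K)) = (algebraMap L[X][X] (MM L)).comp (C.comp C) := by
      ext c
      show kM (algebraMap L[X] K (C c)) = _
      rw [hkM, aeval_C]
      rfl
    rw [e1, ← hom_eval₂ w (C.comp C) (algebraMap L[X][X] (MM L)) (C X)]
    congr 1
    have h1 : eval₂ ((C : L[X] →+* L[X][X]).comp C) (C X) w = C (eval₂ C X w) :=
      (hom_eval₂ w C C X).symm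
    rw [h1, eval₂_C_X]
  have hrel : eval₂ (eval₂RingHom kM xM) yM (X ^ 2 - C (gF K f p) : K[X][X]) = 0 := by
    rw [eval₂_sub, eval₂_pow, eval₂_X, eval₂_C, coe_eval₂RingHom, gF, eval₂_add, eval₂_mul, eval₂_C,
      hw, hw]
    have h1 : kM (hh L K) = tt f p := by
      show kM (algebraMap L[X] K X) = _
      rw [hkM, aeval_X]
    rw [h1, tt, div_mul_cancel₀ _ hCp, map_sub, map_pow]
    ring
  let Θ : CR (gF K f p) →+* MM L := AdjoinRoot.lift (eval₂RingHom kM xM) yM hrel
  have hΘ : ∀ P : L[X][X], Θ (psi K f p P) = algebraMap L[X][X] (MM L) P := by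
    intro P
    have e1 : Θ.comp (psi K f p) = algebraMap L[X][X] (MM L) := by
      refine Polynomial.ringHom_ext' ?_ ?_
      · ext1
        · refine RingHom.ext fun c => ?_
          show Θ (psi K f p (C (C c))) = algebraMap L[X][X] (MM L) (C (C c))
          rw [psi_C]
          have h1 : Θ (pp ((C c).map (lk L K))) = eval₂RingHom kM xM ((C c).map (lk L K)) :=
            AdjoinRoot.lift_of (h := hrel)
          rw [h1, coe_eval₂RingHom, hw]
        · show Θ (psi K f p (C X)) = algebraMap L[X][X] (MM L) (C X)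
          rw [psi_C]
          have h1 : Θ (pp ((X : L[X]).map (lk L K))) = eval₂RingHom kM xM ((X : L[X]).map (lk L K)) :=
            AdjoinRoot.lift_of (h := hrel)
          rw [h1, coe_eval₂RingHom, hw]
      · show Θ (psi K f p X) = algebraMap L[X][X] (MM L) X
        rw [psi_X]
        exact AdjoinRoot.lift_root (i := eval₂RingHom kM xM) (a := yM) hrel
    exact congrArg (fun g : L[X][X] →+* MM L => g P) e1
  intro P P' h
  apply IsFractionRing.injective L[X][X] (MM L)
  rw [← hΘ, ← hΘ, h]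

end

end Q45.UH
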