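import Pool.Agent.Q45.UH.Cnt2

/-!
# The local factors of hyperelliptic curves over finite fields
-/

set_option autoImplicit false

open Polynomial Finset

namespace Q45.UH

open Pool.Agent.H341R2.Sharp

/-- `∑ S_n z ^ n / n` -/
noncomputable def Lz (S : ℕ → ℂ) (z : ℂ) : ℂ := ∑' n : ℕ, S (n + 1) * z ^ (n + 1) / (n + 1)

section

variable {S : ℕ → ℂ} {r C : ℝ}

theorem Lz_term (hr : 0 < r) (hC : 0 ≤ C) (hS : ∀ m, 1 ≤ m → ‖S m‖ ≤ C * r ^ m) (n : ℕ) {z : ℂ}
    {ρ : ℝ} (hz : ‖z‖ ≤ ρ) : ‖S (n + 1) * z ^ (n + 1) / (n + 1)‖ ≤ C * (r * ρ) ^ (n + 1) := by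
  have h1 : ‖((n : ℂ) + 1)‖ = (n : ℝ) + 1 := by
    have : ((n : ℂ) + 1) = (((n + 1 : ℕ) : ℝ) : ℂ) := by push_cast; rfl
    rw [this, Complex.norm_real, Real.norm_eq_abs, abs_of_nonneg (by positivity)]
    push_cast
    rfl
  have hρ : 0 ≤ ρ := (norm_nonneg z).trans hz
  rw [norm_div, norm_mul, norm_pow, h1]
  have h2 : ‖S (n + 1)‖ * ‖z‖ ^ (n + 1) ≤ C * (r * ρ) ^ (n + 1) := by
    rw [mul_pow, ← mul_assoc]
    exact mul_le_mul (hS _ (by omega)) (pow_le_pow_left₀ (norm_nonneg _) hz _) (by positivity)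
      (by positivity)
  refine (div_le_self (by positivity) ?_).trans h2
  have : (0 : ℝ) ≤ n := by positivity
  linarith

theorem Lz_deriv (hr : 0 < r) (hC : 0 ≤ C) (hS : ∀ m, 1 ≤ m → ‖S m‖ ≤ C * r ^ m) {z : ℂ}
    (hz : r * ‖z‖ < 1) : DifferentiableAt ℂ (Lz S) z ∧
      HasSum (fun n : ℕ => S (n + 1) * z ^ n) (deriv (Lz S) z) := by
  obtain ⟨ρ, h1, h2⟩ : ∃ ρ, ‖z‖ < ρ ∧ r * ρ < 1 := by
    have h3 : ‖z‖ < 1 / r := by
      rw [lt_div_iff₀ hr]
      linarith
    obtain ⟨ρ, h4, h5⟩ := exists_between h3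
    rw [lt_div_iff₀ hr] at h5
    exact ⟨ρ, h4, by linarith⟩
  have hρ : 0 ≤ ρ := (norm_nonneg z).trans h1.le
  have hsum : Summable fun n : ℕ => C * (r * ρ) ^ (n + 1) :=
    ((summable_nat_add_iff 1).2 (summable_geometric_of_lt_one (by positivity) h2)).mul_left C
  have hopen : IsOpen {w : ℂ | ‖w‖ < ρ} := isOpen_lt continuous_norm continuous_const
  have hd : ∀ n : ℕ, DifferentiableOn ℂ (fun w : ℂ => S (n + 1) * w ^ (n + 1) / (n + 1))
      {w : ℂ | ‖w‖ < ρ} := by
    intro n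
    exact (((differentiable_id.pow (n + 1)).const_mul (S (n + 1))).div_const _).differentiableOn
  have hb : ∀ (n : ℕ) (w : ℂ), w ∈ {w : ℂ | ‖w‖ < ρ} →
      ‖S (n + 1) * w ^ (n + 1) / (n + 1)‖ ≤ C * (r * ρ) ^ (n + 1) := by
    intro n w hw
    exact Lz_term hr hC hS n (le_of_lt hw)
  constructor
  · exact (Complex.differentiableOn_tsum_of_summable_norm hsum hd hopen hb).differentiableAt
      (hopen.mem_nhds h1)
  · have h3 := Complex.hasSum_deriv_of_summable_norm hsum hd hopen hb h1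
    have h4 : ∀ n : ℕ, deriv (fun w : ℂ => S (n + 1) * w ^ (n + 1) / (n + 1)) z =
        S (n + 1) * z ^ n := by
      intro n
      have hn : ((n : ℂ) + 1) ≠ 0 := by exact_mod_cast Nat.succ_ne_zero n
      have h5 : HasDerivAt (fun w : ℂ => S (n + 1) * w ^ (n + 1) / (n + 1))
          (S (n + 1) * (((n + 1 : ℕ) : ℂ) * z ^ (n + 1 - 1)) / (n + 1)) z :=
        ((hasDerivAt_pow (n + 1) z).const_mul _).div_const _
      rw [h5.deriv]
      push_cast
      field_simp
    simp_rw [h4] at h3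
    exact h3

/-- the polynomial is the exponential of the logarithm -/
theorem exp_Lz (a : ℂ[X]) (ha : a.coeff 0 = 1) (hr : 0 < r) (hC : 0 ≤ C)
    (hS : ∀ m, 1 ≤ m → ‖S m‖ ≤ C * r ^ m)
    (hid : ∀ n : ℕ, (n : ℂ) * a.coeff n = ∑ m ∈ Icc 1 n, a.coeff (n - m) * S m) {z : ℂ}
    (hz : r * ‖z‖ < 1) : a.eval z = Complex.exp (Lz S z) := by
  have hkey : ∀ w : ℂ, r * ‖w‖ < 1 → a.derivative.eval w = a.eval w * deriv (Lz S) w := by
    intro w hw
    obtain ⟨h1, h2⟩ := Lz_deriv hr hC hS hw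
    have hg1 : Summable fun n => ‖a.coeff n * w ^ n‖ := by
      apply summable_of_ne_finset_zero (s := range (a.natDegree + 1))
      intro n hn
      rw [mem_range] at hn
      rw [coeff_eq_zero_of_natDegree_lt (by omega), zero_mul, norm_zero]
    have hgt : ∑' n, a.coeff n * w ^ n = a.eval w := by
      rw [tsum_eq_sum (s := range (a.natDegree + 1)), eval_eq_sum_range]
      intro n hn
      rw [mem_range] at hn
      rw [coeff_eq_zero_of_natDegree_lt (by omega), zero_mul]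
    have hs1 : Summable fun n => ‖S (n + 1) * w ^ n‖ := by
      have h3 : ∀ n : ℕ, ‖S (n + 1) * w ^ n‖ ≤ C * r * (r * ‖w‖) ^ n := by
        intro n
        rw [norm_mul, norm_pow, mul_pow]
        calc ‖S (n + 1)‖ * ‖w‖ ^ n ≤ (C * r ^ (n + 1)) * ‖w‖ ^ n :=
              mul_le_mul_of_nonneg_right (hS _ (by omega)) (by positivity)
          _ = C * r * (r ^ n * ‖w‖ ^ n) := by ring
      exact Summable.of_nonneg_of_le (fun _ => norm_nonneg _) h3
        ((summable_geometric_of_lt_one (by positivity) hw).mul_left _)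
    rw [← h2.tsum_eq, ← hgt, tsum_mul_tsum_eq_tsum_sum_antidiagonal_of_summable_norm hg1 hs1]
    have h4 : ∀ n, ∑ kl ∈ antidiagonal n, (a.coeff kl.1 * w ^ kl.1) * (S (kl.2 + 1) * w ^ kl.2) =
        ((n + 1 : ℕ) : ℂ) * a.coeff (n + 1) * w ^ n := by
      intro n
      rw [hid (n + 1), Nat.sum_antidiagonal_eq_sum_range_succ_mk, sum_mul]
      rw [← sum_range_reflect]
      have h5 : ∀ φ : ℕ → ℂ, ∑ m ∈ Icc 1 (n + 1), φ m = ∑ m ∈ range (n + 1), φ (m + 1) := by
        intro φ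
        symm
        refine sum_nbij' (fun r => r + 1) (fun r => r - 1) ?_ ?_ ?_ ?_ ?_
        · intro r hr
          rw [mem_range] at hr
          rw [mem_Icc]
          omega
        · intro r hr
          rw [mem_Icc] at hr
          rw [mem_range]
          omega
        · intro r _
          exact Nat.add_sub_cancel r 1
        · intro r hr
          rw [mem_Icc] at hr
          exact Nat.sub_add_cancel hr.1
        · intro r _
          rfl
      rw [h5]
      apply sum_congr rfl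
      intro m hm
      rw [mem_range] at hm
      simp only
      have e1 : n + 1 - 1 - m = n - m := by omega
      have e2 : n - (n - m) = m := by omega
      have e3 : n + 1 - (m + 1) = n - m := by omega
      rw [e1, e2, e3]
      have e4 : w ^ n = w ^ (n - m) * w ^ m := by
        rw [← pow_add]
        congr 1
        omega
      rw [e4]
      ring
    simp_rw [h4]
    rw [tsum_eq_sum (s := range (a.natDegree + 1))]
    · rw [eval_eq_sum_range' (n := a.natDegree + 1)]
      · refine sum_congr rfl fun n _ => ?_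
        rw [coeff_derivative]
        push_cast
        ring
      · exact (natDegree_derivative_le a).trans_lt (by omega)
    · intro n hn
      rw [mem_range] at hn
      rw [coeff_eq_zero_of_natDegree_lt (by omega), mul_zero, zero_mul]
  -- the quotient is constant
  set U : Set ℂ := {w : ℂ | r * ‖w‖ < 1} with hU
  have hUo : IsOpen U := isOpen_lt (continuous_const.mul continuous_norm) continuous_const
  have hUc : Convex ℝ U := by
    have : U = Metric.ball (0 : ℂ) (1 / r) := by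
      ext w
      rw [hU, Set.mem_ofPred_eq, Metric.mem_ball, dist_zero_right, lt_div_iff₀ hr, mul_comm]
    rw [this]
    exact convex_ball _ _
  have h0U : (0 : ℂ) ∈ U := by
    rw [hU, Set.mem_ofPred_eq, norm_zero, mul_zero]
    exact one_pos
  set g : ℂ → ℂ := fun w => a.eval w * Complex.exp (- Lz S w) with hg
  have hgd : ∀ w ∈ U, HasDerivAt g 0 w := by
    intro w hw
    have h1 := (Lz_deriv hr hC hS hw).1.hasDerivAt
    have h2 := (a.hasDerivAt w).mul h1.neg.cexp
    refine h2.congr_deriv ?_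
    rw [hkey w hw]
    ring
  have hgc : g z = g 0 := by
    refine hUo.is_const_of_deriv_eq_zero hUc.isPreconnected
      (fun w hw => (hgd w hw).differentiableAt.differentiableWithinAt)
      (fun w hw => (hgd w hw).deriv) hz h0U
  have hL0 : Lz S 0 = 0 := by
    rw [Lz]
    have : ∀ n : ℕ, S (n + 1) * (0 : ℂ) ^ (n + 1) / (n + 1) = 0 := by
      intro n
      rw [zero_pow (Nat.succ_ne_zero n), mul_zero, zero_div]
    simp_rw [this]
    exact tsum_zero
  have hg0 : g 0 = 1 := by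
    rw [hg]
    simp only
    rw [hL0, neg_zero, Complex.exp_zero, mul_one, ← coeff_zero_eq_eval_zero, ha]
  rw [hg0, hg] at hgc
  simp only at hgc
  have h5 : a.eval z = (a.eval z * Complex.exp (- Lz S z)) * Complex.exp (Lz S z) := by
    rw [mul_assoc, ← Complex.exp_add, neg_add_cancel, Complex.exp_zero, mul_one]
  rw [h5, hgc, one_mul]

/-- the first term -/
theorem Lz_first (hr : 0 < r) (hC : 0 ≤ C) (hS : ∀ m, 1 ≤ m → ‖S m‖ ≤ C * r ^ m) {z : ℂ}
    (hz : r * ‖z‖ ≤ 1 / 2) : ‖Lz S z - S 1 * z‖ ≤ 2 * C * (r * ‖z‖) ^ 2 := by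
  have hx0 : 0 ≤ r * ‖z‖ := by positivity
  have hx1 : r * ‖z‖ < 1 := by linarith
  have hsum : Summable fun n : ℕ => S (n + 1) * z ^ (n + 1) / (n + 1) := by
    refine Summable.of_norm_bounded ?_ (fun n => Lz_term hr hC hS n le_rfl)
    exact ((summable_nat_add_iff 1).2 (summable_geometric_of_lt_one hx0 hx1)).mul_left C
  have h1 : Lz S z - S 1 * z = ∑' n : ℕ, S (n + 1 + 1) * z ^ (n + 1 + 1) / ((n + 1 : ℕ) + 1) := by
    rw [Lz, hsum.tsum_eq_zero_add]
    simp
  rw [h1]
  have h2 : ∀ n : ℕ, ‖S (n + 1 + 1) * z ^ (n + 1 + 1) / ((n + 1 : ℕ) + 1)‖ ≤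
      (C * (r * ‖z‖) ^ 2) * (r * ‖z‖) ^ n := by
    intro n
    refine (Lz_term hr hC hS (n + 1) le_rfl).trans (le_of_eq ?_)
    ring
  have h3 := tsum_of_norm_bounded ((hasSum_geometric_of_lt_one hx0 hx1).mul_left
    (C * (r * ‖z‖) ^ 2)) h2
  refine h3.trans ?_
  have h4 : (1 - r * ‖z‖)⁻¹ ≤ 2 := by
    rw [inv_le_comm₀ (by linarith) (by norm_num)]
    linarith
  calc C * (r * ‖z‖) ^ 2 * (1 - r * ‖z‖)⁻¹ ≤ C * (r * ‖z‖) ^ 2 * 2 :=
        mul_le_mul_of_nonneg_left h4 (by positivity)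
    _ = 2 * C * (r * ‖z‖) ^ 2 := by ring

end

end Q45.UH
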